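import Pool.Agent.helper43.KG.Spec

set_option autoImplicit false

namespace Pool.Agent.helper43.KG

open Finset MeasureTheory ProbabilityTheory Filter

theorem ASYm_pow (x : ℝ) : Tendsto (fun N : ℕ => (1 + x / N) ^ N) atTop (nhds (Real.exp x)) :=
  Real.tendsto_one_add_div_pow_exp x

theorem ASYm_sqrt : Tendsto (fun N : ℕ => Real.sqrt N) atTop atTop :=
  Real.tendsto_sqrt_atTop.comp tendsto_natCast_atTop_atTop

theorem t_asy : ASY := by
  intro ω ρ hω hρ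
  have hs := ASYm_sqrt
  -- first: limits
  have hA := ASYm_pow (-(ω ^ 2 / 2))
  have hB := ASYm_pow (-(2 * ω ^ 2))
  have hC : Tendsto (fun N : ℕ => ω - ω ^ 3 / 4 / N) atTop (nhds ω) := by
    have : Tendsto (fun N : ℕ => ω ^ 3 / 4 / (N : ℝ)) atTop (nhds 0) :=
      tendsto_const_div_atTop_nhds_zero_nat _
    simpa using tendsto_const_nhds.sub this
  have hAC := hC.mul hA
  have e1 : ∀ᶠ N : ℕ in atTop, ω * Real.exp (-(ω ^ 2 / 2)) - ρ < (ω - ω ^ 3 / 4 / N) * (1 + -(ω ^ 2 / 2) / N) ^ N :=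
    hAC.eventually_const_lt (by linarith)
  have e2 : ∀ᶠ N : ℕ in atTop, Real.exp (-(2 * ω ^ 2)) - ρ < (1 + -(2 * ω ^ 2) / N) ^ N :=
    hB.eventually_const_lt (by linarith)
  have e3 : ∀ᶠ N : ℕ in atTop, 4 * ω ≤ Real.sqrt N := hs.eventually_ge_atTop _
  have e4 : ∀ᶠ N : ℕ in atTop, 1 ≤ N := eventually_ge_atTop 1
  obtain ⟨N₀, hN₀⟩ := eventually_atTop.1 (((e1.and e2).and e3).and e4)
  refine ⟨N₀, fun N hN => ?_⟩
  obtain ⟨⟨⟨h1, h2⟩, h3⟩, h4⟩ := hN₀ N hN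
  refine ⟨h4, h3, ?_, ?_⟩
  · have hN0 : (0 : ℝ) < N := by exact_mod_cast h4
    have hsN : 0 < Real.sqrt N := Real.sqrt_pos.2 hN0
    have hss : Real.sqrt N ^ 2 = N := Real.sq_sqrt hN0.le
    set θ := ω / Real.sqrt N with hθ
    have hθ0 : 0 < θ := by positivity
    have hθ1 : θ ≤ 1 / 4 := by
      rw [hθ, div_le_iff₀ hsN]; linarith
    have hθ2 : θ ^ 2 = ω ^ 2 / N := by rw [hθ, div_pow, hss]
    have hcos : 1 + -(ω ^ 2 / 2) / N ≤ Real.cos θ := by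
      have := Real.one_sub_sq_div_two_le_cos (x := θ)
      rw [hθ2] at this
      have e : 1 + -(ω ^ 2 / 2) / (N : ℝ) = 1 - ω ^ 2 / N / 2 := by ring
      rw [e]; exact this
    have hb0 : 0 ≤ 1 + -(ω ^ 2 / 2) / (N : ℝ) := by
      have e : 1 + -(ω ^ 2 / 2) / (N : ℝ) = 1 - θ ^ 2 / 2 := by rw [hθ2]; ring
      rw [e]; nlinarith
    have hpow : (1 + -(ω ^ 2 / 2) / (N : ℝ)) ^ N ≤ Real.cos θ ^ (N - 1) := by
      calc (1 + -(ω ^ 2 / 2) / (N : ℝ)) ^ N ≤ Real.cos θ ^ N := pow_le_pow_left₀ hb0 hcos N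
        _ ≤ Real.cos θ ^ (N - 1) := pow_le_pow_of_le_one (hb0.trans hcos) (Real.cos_le_one θ) (Nat.sub_le _ _)
    have hsin : ω - ω ^ 3 / 4 / N ≤ Real.sqrt N * Real.sin θ := by
      have h5' := Real.sin_gt_sub_cube hθ0
      have h5 : θ - θ ^ 3 / 4 < Real.sin θ := by
        have : 0 < θ ^ 3 := by positivity
        linarith
      have h6 : Real.sqrt N * (θ - θ ^ 3 / 4) = ω - ω ^ 3 / 4 / N := by
        have : θ ^ 3 = θ * θ ^ 2 := by ring
        rw [this, hθ2]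
        have h7 : Real.sqrt N * θ = ω := by rw [hθ]; field_simp
        calc Real.sqrt N * (θ - θ * (ω ^ 2 / N) / 4) = (Real.sqrt N * θ) * (1 - ω ^ 2 / N / 4) := by ring
          _ = _ := by rw [h7]; ring
      rw [← h6]
      exact mul_le_mul_of_nonneg_left h5.le hsN.le
    have hsin0 : 0 ≤ ω - ω ^ 3 / 4 / N := by
      have h8 : ω - ω ^ 3 / 4 / N = ω * (1 - θ ^ 2 / 4) := by rw [hθ2]; ring
      rw [h8]
      exact mul_nonneg hω.le (by nlinarith)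
    refine h1.le.trans ?_
    rw [← mul_assoc]
    exact mul_le_mul hsin hpow (pow_nonneg hb0 _) (hsin0.trans hsin)
  · have hN0 : (0 : ℝ) < N := by exact_mod_cast h4
    have hsN : 0 < Real.sqrt N := Real.sqrt_pos.2 hN0
    have hss : Real.sqrt N ^ 2 = N := Real.sq_sqrt hN0.le
    set θ := 2 * ω / Real.sqrt N with hθ
    have hθ0 : 0 < θ := by positivity
    have hθ1 : θ ≤ 1 / 2 := by
      rw [hθ, div_le_iff₀ hsN]; linarith
    have hθ2 : θ ^ 2 = 4 * ω ^ 2 / N := by rw [hθ, div_pow, hss]; ring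
    have hcos : 1 + -(2 * ω ^ 2) / N ≤ Real.cos θ := by
      have := Real.one_sub_sq_div_two_le_cos (x := θ)
      rw [hθ2] at this
      have e : 1 + -(2 * ω ^ 2) / (N : ℝ) = 1 - 4 * ω ^ 2 / N / 2 := by ring
      rw [e]; exact this
    have hb0 : 0 ≤ 1 + -(2 * ω ^ 2) / (N : ℝ) := by
      have e : 1 + -(2 * ω ^ 2) / (N : ℝ) = 1 - θ ^ 2 / 2 := by rw [hθ2]; ring
      rw [e]; nlinarith
    exact h2.le.trans (pow_le_pow_left₀ hb0 hcos N)

end Pool.Agent.helper43.KG
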