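import Mathlib

set_option autoImplicit false

/-!
# Project KG (MP_cef0b4_gt, Khinchine gap): definitions and basic lemmas

A sign vector on a finite set `s` is given by the subset `U` of the coordinates with sign `+1`.
`EE s f F` is the expectation of `F` over independent random signs, the sign of `j` having mean `f j`.
-/

namespace Pool.Agent.helper43.KG

open Finset

/-- the sign of `j` in the sign vector with plus signs on `U` -/
noncomputable def sg {ι : Type} [DecidableEq ι] (U : Finset ι) (j : ι) : ℝ := if j ∈ U then 1 else -1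

/-- expectation of `F` over independent random signs on `s`, the sign of `j` having mean `f j` -/
noncomputable def EE {ι : Type} [DecidableEq ι] (s : Finset ι) (f : ι → ℝ) (F : Finset ι → ℝ) : ℝ :=
  ∑ U ∈ s.powerset, ((∏ j ∈ U, (1 + f j) / 2) * ∏ j ∈ s \ U, (1 - f j) / 2) * F U

/-- `E |a + s g|^p` for a standard normal `g` -/
noncomputable def GH (p a s : ℝ) : ℝ := ∫ x, |a + s * x| ^ p ∂(ProbabilityTheory.gaussianReal 0 1)

/-- `E |g|^p` -/
noncomputable def gam (p : ℝ) : ℝ := GH p 0 1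

section

variable {ι : Type} [DecidableEq ι]

theorem sg_abs (U : Finset ι) (j : ι) : |sg U j| = 1 := by
  unfold sg; split_ifs <;> simp

theorem sg_sq (U : Finset ι) (j : ι) : sg U j ^ 2 = 1 := by
  unfold sg; split_ifs <;> simp

theorem sg_insert_self (U : Finset ι) (j : ι) : sg (insert j U) j = 1 := by
  simp [sg]

theorem sg_insert_ne (U : Finset ι) {i j : ι} (h : i ≠ j) : sg (insert j U) i = sg U i := by
  simp [sg, h]

theorem sg_notMem {U : Finset ι} {j : ι} (h : j ∉ U) : sg U j = -1 := by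
  simp [sg, h]

/-- the weight of a sign vector -/
theorem wt_nonneg {s U : Finset ι} {f : ι → ℝ} (hf : ∀ j ∈ s, |f j| ≤ 1) (hU : U ⊆ s) :
    0 ≤ (∏ j ∈ U, (1 + f j) / 2) * ∏ j ∈ s \ U, (1 - f j) / 2 := by
  refine mul_nonneg (prod_nonneg fun j hj => ?_) (prod_nonneg fun j hj => ?_)
  · have := abs_le.1 (hf j (hU hj)); linarith
  · have := abs_le.1 (hf j (mem_sdiff.1 hj).1); linarith

theorem EE_const (s : Finset ι) (f : ι → ℝ) (c : ℝ) : EE s f (fun _ => c) = c := by
  unfold EE
  rw [← Finset.sum_mul, ← Finset.prod_add]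
  rw [Finset.prod_eq_one, one_mul]
  intro j _
  ring

theorem EE_add (s : Finset ι) (f : ι → ℝ) (F F' : Finset ι → ℝ) :
    EE s f (fun U => F U + F' U) = EE s f F + EE s f F' := by
  unfold EE
  rw [← Finset.sum_add_distrib]
  exact Finset.sum_congr rfl fun U _ => by ring

theorem EE_sub (s : Finset ι) (f : ι → ℝ) (F F' : Finset ι → ℝ) :
    EE s f (fun U => F U - F' U) = EE s f F - EE s f F' := by
  unfold EE
  rw [← Finset.sum_sub_distrib]
  exact Finset.sum_congr rfl fun U _ => by ring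

theorem EE_mul (s : Finset ι) (f : ι → ℝ) (c : ℝ) (F : Finset ι → ℝ) :
    EE s f (fun U => c * F U) = c * EE s f F := by
  unfold EE
  rw [Finset.mul_sum]
  exact Finset.sum_congr rfl fun U _ => by ring

theorem EE_sum {κ : Type} (s : Finset ι) (f : ι → ℝ) (t : Finset κ) (F : κ → Finset ι → ℝ) :
    EE s f (fun U => ∑ k ∈ t, F k U) = ∑ k ∈ t, EE s f (F k) := by
  unfold EE
  rw [Finset.sum_comm]
  exact Finset.sum_congr rfl fun U _ => by rw [Finset.mul_sum]

theorem EE_congr {s : Finset ι} {f : ι → ℝ} {F F' : Finset ι → ℝ} (h : ∀ U ⊆ s, F U = F' U) :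
    EE s f F = EE s f F' :=
  Finset.sum_congr rfl fun U hU => by rw [h U (mem_powerset.1 hU)]

theorem EE_mono {s : Finset ι} {f : ι → ℝ} (hf : ∀ j ∈ s, |f j| ≤ 1) {F F' : Finset ι → ℝ}
    (h : ∀ U ⊆ s, F U ≤ F' U) : EE s f F ≤ EE s f F' :=
  Finset.sum_le_sum fun U hU => mul_le_mul_of_nonneg_left (h U (mem_powerset.1 hU))
    (wt_nonneg hf (mem_powerset.1 hU))

/-- some sign vector does at least as well as the average -/
theorem EE_exists {s : Finset ι} {f : ι → ℝ} (hf : ∀ j ∈ s, |f j| ≤ 1) (F : Finset ι → ℝ) :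
    ∃ U, U ⊆ s ∧ EE s f F ≤ F U := by
  by_contra hcon
  push Not at hcon
  obtain ⟨U₀, hU₀, hmax⟩ := s.powerset.exists_max_image F ⟨∅, by simp⟩
  have h1 : EE s f F ≤ EE s f (fun _ => F U₀) :=
    EE_mono hf fun U hU => hmax U (mem_powerset.2 hU)
  rw [EE_const] at h1
  exact absurd h1 (not_le.2 (hcon U₀ (mem_powerset.1 hU₀)))

/-- conditioning on one coordinate -/
theorem EE_insert {s : Finset ι} {j : ι} (hj : j ∉ s) (f : ι → ℝ) (F : Finset ι → ℝ) :
    EE (insert j s) f F =
      (1 + f j) / 2 * EE s f (fun U => F (insert j U)) + (1 - f j) / 2 * EE s f F := by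
  unfold EE
  rw [Finset.sum_powerset_insert hj, add_comm, Finset.mul_sum, Finset.mul_sum]
  congr 1
  · refine Finset.sum_congr rfl fun U hU => ?_
    have hjU : j ∉ U := fun h => hj (mem_powerset.1 hU h)
    rw [Finset.prod_insert hjU, Finset.insert_sdiff_insert]
    have : s \ insert j U = s \ U := by
      ext k; simp only [mem_sdiff, mem_insert, not_or]
      exact ⟨fun h => ⟨h.1, h.2.2⟩, fun h => ⟨h.1, fun hk => hj (hk ▸ h.1), h.2⟩⟩
    rw [this]; ring
  · refine Finset.sum_congr rfl fun U hU => ?_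
    have hjU : j ∉ U := fun h => hj (mem_powerset.1 hU h)
    have : insert j s \ U = insert j (s \ U) := by
      ext k; simp only [mem_sdiff, mem_insert]
      constructor
      · rintro ⟨h | h, h2⟩
        · exact Or.inl h
        · exact Or.inr ⟨h, h2⟩
      · rintro (h | h)
        · exact ⟨Or.inl h, fun hk => hjU (h ▸ hk)⟩
        · exact ⟨Or.inr h.1, h.2⟩
    rw [this, Finset.prod_insert (fun h => hj (mem_sdiff.1 h).1)]
    ring

theorem EE_empty (f : ι → ℝ) (F : Finset ι → ℝ) : EE ∅ f F = F ∅ := by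
  simp [EE]

/-- Jensen -/
theorem EE_jensen {s : Finset ι} {f : ι → ℝ} (hf : ∀ j ∈ s, |f j| ≤ 1) {h : ℝ → ℝ}
    (hh : ConvexOn ℝ Set.univ h) (F : Finset ι → ℝ) : h (EE s f F) ≤ EE s f (fun U => h (F U)) := by
  have h1 := hh.map_sum_le (t := s.powerset)
    (w := fun U => (∏ j ∈ U, (1 + f j) / 2) * ∏ j ∈ s \ U, (1 - f j) / 2) (p := F)
    (fun U hU => wt_nonneg hf (mem_powerset.1 hU)) (by
      have := EE_const s f 1
      unfold EE at this
      simpa using this) (fun _ _ => Set.mem_univ _)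
  simpa [EE, smul_eq_mul] using h1

/-- the mean of one sign -/
theorem EE_sg {s : Finset ι} (f : ι → ℝ) {j : ι} (hj : j ∈ s) : EE s f (fun U => sg U j) = f j := by
  obtain ⟨t, hjt, rfl⟩ : ∃ t, j ∉ t ∧ s = insert j t := ⟨s.erase j, by simp, by simp [hj]⟩
  rw [EE_insert hjt]
  have h1 : EE t f (fun U => sg (insert j U) j) = 1 := by
    rw [EE_congr (F' := fun _ => 1) (fun U _ => sg_insert_self U j), EE_const]
  have h2 : EE t f (fun U => sg U j) = -1 := by
    rw [EE_congr (F' := fun _ => -1) (fun U hU => sg_notMem fun h => hjt (hU h)), EE_const]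
  rw [h1, h2]; ring

end

end Pool.Agent.helper43.KG
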