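import Pool.Agent.helper43.KG.Spec

set_option autoImplicit false

namespace Pool.Agent.helper43.KG

open Finset MeasureTheory ProbabilityTheory

theorem GEV_conv {p : ℝ} (hp : 1 ≤ p) : ConvexOn ℝ Set.univ (fun x : ℝ => |x| ^ p) := by
  have h1 : ConvexOn ℝ (Set.Ici (0 : ℝ)) (fun x : ℝ => x ^ p) := convexOn_rpow hp
  refine ⟨convex_univ, ?_⟩
  intro x _ y _ a b ha hb hab
  simp only [smul_eq_mul]
  have h2 : |a * x + b * y| ≤ a * |x| + b * |y| := by
    refine (abs_add_le _ _).trans ?_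
    rw [abs_mul, abs_mul, abs_of_nonneg ha, abs_of_nonneg hb]
  calc |a * x + b * y| ^ p ≤ (a * |x| + b * |y|) ^ p :=
        Real.rpow_le_rpow (abs_nonneg _) h2 (by linarith)
    _ ≤ a * |x| ^ p + b * |y| ^ p := h1.2 (Set.mem_Ici.2 (abs_nonneg x)) (Set.mem_Ici.2 (abs_nonneg y)) ha hb hab

theorem GEV_grow {p : ℝ} (hp : 0 ≤ p) (hp2 : p ≤ 2) (x : ℝ) : |(|x| ^ p)| ≤ 1 * (1 + x ^ 2) := by
  rw [abs_of_nonneg (Real.rpow_nonneg (abs_nonneg _) _), one_mul]
  by_cases h : |x| ≤ 1
  · have := Real.rpow_le_one (abs_nonneg x) h hp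
    nlinarith [sq_nonneg x]
  · push Not at h
    have h1 : |x| ^ p ≤ |x| ^ (2 : ℝ) := Real.rpow_le_rpow_of_exponent_le h.le hp2
    rw [Real.rpow_two, sq_abs] at h1
    linarith

theorem GEV_cont {p : ℝ} (hp : 0 ≤ p) : Continuous (fun x : ℝ => |x| ^ p) :=
  continuous_abs.rpow_const fun _ => Or.inr hp

theorem GEV_int (h : GIC) {p : ℝ} (hp : 0 ≤ p) (hp2 : p ≤ 2) (a s : ℝ) :
    Integrable (fun x => |a + s * x| ^ p) (gaussianReal 0 1) :=
  h (fun x => |x| ^ p) 1 a s (GEV_cont hp) (GEV_grow hp hp2)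

theorem GEV_symm (F : ℝ → ℝ) : ∫ x, F (-x) ∂(gaussianReal 0 1) = ∫ x, F x ∂(gaussianReal 0 1) := by
  have h1 : (gaussianReal 0 1).map (fun x => -x) = gaussianReal 0 1 := by
    have := gaussianReal_map_neg (μ := 0) (v := 1)
    simpa using this
  have h2 := (MeasurableEquiv.neg ℝ).measurableEmbedding.integral_map (μ := gaussianReal 0 1) F
  have h3 : ((MeasurableEquiv.neg ℝ : ℝ ≃ᵐ ℝ) : ℝ → ℝ) = fun x => -x := rfl
  rw [h3, h1] at h2
  exact h2.symm

theorem GEV_half (h : GIC) {p : ℝ} (hp : 0 ≤ p) (hp2 : p ≤ 2) (a s : ℝ) :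
    GH p a s = ∫ x, (|a + s * x| ^ p + |a - s * x| ^ p) / 2 ∂(gaussianReal 0 1) := by
  have h1 := GEV_symm (fun x => |a + s * x| ^ p)
  have h2 : ∫ x, |a - s * x| ^ p ∂(gaussianReal 0 1) = GH p a s := by
    unfold GH
    rw [← h1]
    refine integral_congr_ae (Filter.Eventually.of_forall fun x => ?_)
    simp only
    congr 2
    ring
  have hi1 := GEV_int h hp hp2 a s
  have hi2 : Integrable (fun x => |a - s * x| ^ p) (gaussianReal 0 1) := by
    have := GEV_int h hp hp2 a (-s)
    refine this.congr (Filter.Eventually.of_forall fun x => ?_)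
    simp only
    congr 2
    ring
  rw [integral_div, integral_add hi1 hi2, h2]
  unfold GH
  ring

theorem t_gev (h : GIC) : GEV := by
  intro p s hp hp2
  have hp0 : 0 ≤ p := by linarith
  refine ⟨⟨convex_univ, ?_⟩, ?_, ?_⟩
  · intro x _ y _ a b ha hb hab
    simp only [smul_eq_mul]
    unfold GH
    rw [← integral_const_mul, ← integral_const_mul, ← integral_add
      ((GEV_int h hp0 hp2 x s).const_mul a) ((GEV_int h hp0 hp2 y s).const_mul b)]
    refine integral_mono (GEV_int h hp0 hp2 _ s)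
      (((GEV_int h hp0 hp2 x s).const_mul a).add ((GEV_int h hp0 hp2 y s).const_mul b)) fun z => ?_
    simp only [Pi.add_apply]
    have h1 : a * x + b * y + s * z = a * (x + s * z) + b * (y + s * z) := by
      have : s * z = (a + b) * (s * z) := by rw [hab, one_mul]
      linear_combination this
    rw [h1]
    exact (GEV_conv hp).2 (Set.mem_univ _) (Set.mem_univ _) ha hb hab
  · intro a
    unfold GH
    rw [← GEV_symm]
    refine integral_congr_ae (Filter.Eventually.of_forall fun x => ?_)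
    simp only
    have : -a + s * -x = -(a + s * x) := by ring
    rw [this, abs_neg]
  · intro a
    rw [GEV_half h hp0 hp2]
    have hc : |a| ^ p = ∫ _x : ℝ, |a| ^ p ∂(gaussianReal 0 1) := by simp
    rw [hc]
    have hi1 := GEV_int h hp0 hp2 a s
    have hi2 : Integrable (fun x => |a - s * x| ^ p) (gaussianReal 0 1) := by
      have := GEV_int h hp0 hp2 a (-s)
      refine this.congr (Filter.Eventually.of_forall fun x => ?_)
      simp only
      congr 2
      ring
    refine integral_mono (integrable_const _) ((hi1.add hi2).div_const 2) fun z => ?_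
    simp only [Pi.add_apply]
    have h1 := (GEV_conv hp).2 (Set.mem_univ (a + s * z)) (Set.mem_univ (a - s * z))
      (by norm_num : (0 : ℝ) ≤ 1 / 2) (by norm_num : (0 : ℝ) ≤ 1 / 2) (by norm_num)
    simp only [smul_eq_mul] at h1
    have h2 : 1 / 2 * (a + s * z) + 1 / 2 * (a - s * z) = a := by ring
    rw [h2] at h1
    linarith

end Pool.Agent.helper43.KG
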