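import Pool.Agent.helper43.KG.Spec

set_option autoImplicit false

namespace Pool.Agent.helper43.KG

open Finset MeasureTheory ProbabilityTheory

theorem t_gic : GIC := by
  intro ϕ C a s hc hb
  have h2 : Integrable (fun x : ℝ => x ^ 2) (gaussianReal 0 1) := by
    have := (memLp_id_gaussianReal (μ := 0) (v := 1) 2).integrable_sq
    simpa using this
  have h1 : Integrable (fun x : ℝ => C * (1 + 2 * a ^ 2 + 2 * s ^ 2 * x ^ 2)) (gaussianReal 0 1) := by
    refine Integrable.const_mul ?_ C
    exact (integrable_const _).add (h2.const_mul _)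
  refine h1.mono' (Continuous.aestronglyMeasurable (by fun_prop)) (Filter.Eventually.of_forall fun x => ?_)
  rw [Real.norm_eq_abs]
  refine (hb (a + s * x)).trans ?_
  have hC : 0 ≤ C := by
    have := (abs_nonneg _).trans (hb 0)
    simpa using this
  refine mul_le_mul_of_nonneg_left ?_ hC
  nlinarith [sq_nonneg (a - s * x)]

end Pool.Agent.helper43.KG
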