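import Pool.Agent.helper43.KG.GEV

set_option autoImplicit false

namespace Pool.Agent.helper43.KG

open Finset MeasureTheory ProbabilityTheory

/-- an even convex function is nondecreasing on the nonnegative half line -/
theorem GMN_mono {F : ℝ → ℝ} (hc : ConvexOn ℝ Set.univ F) (he : ∀ x, F (-x) = F x) {a b : ℝ}
    (ha : 0 ≤ a) (hab : a ≤ b) : F a ≤ F b := by
  rcases eq_or_lt_of_le (ha.trans hab) with hb | hb
  · have h1 : a = 0 := le_antisymm (hab.trans hb.ge) ha
    rw [h1, ← hb]
  · have h1 := hc.2 (Set.mem_univ b) (Set.mem_univ (-b))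
      (by positivity : (0 : ℝ) ≤ (b + a) / (2 * b)) (div_nonneg (by linarith) (by linarith) : (0 : ℝ) ≤ (b - a) / (2 * b))
      (by field_simp; ring)
    simp only [smul_eq_mul] at h1
    rw [he] at h1
    have h2 : (b + a) / (2 * b) * b + (b - a) / (2 * b) * -b = a := by field_simp; ring
    have h3 : (b + a) / (2 * b) * F b + (b - a) / (2 * b) * F b = F b := by field_simp; ring
    rw [h2, h3] at h1
    exact h1

theorem GMN_pair {p : ℝ} (hp : 1 ≤ p) (a : ℝ) {s t : ℝ} (x : ℝ) (hs : 0 ≤ s) (hst : s ≤ t) :
    (|a + s * x| ^ p + |a - s * x| ^ p) / 2 ≤ (|a + t * x| ^ p + |a - t * x| ^ p) / 2 := by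
  have hc : ConvexOn ℝ Set.univ (fun s : ℝ => |a + s * x| ^ p + |a - s * x| ^ p) := by
    refine ⟨convex_univ, ?_⟩
    intro u _ v _ c e hc0 he0 hce
    simp only [smul_eq_mul]
    have h1 := (GEV_conv hp).2 (Set.mem_univ (a + u * x)) (Set.mem_univ (a + v * x)) hc0 he0 hce
    have h2 := (GEV_conv hp).2 (Set.mem_univ (a - u * x)) (Set.mem_univ (a - v * x)) hc0 he0 hce
    simp only [smul_eq_mul] at h1 h2
    have e1 : c * (a + u * x) + e * (a + v * x) = a + (c * u + e * v) * x := by
      have : a = (c + e) * a := by rw [hce, one_mul]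
      linear_combination -this
    have e2 : c * (a - u * x) + e * (a - v * x) = a - (c * u + e * v) * x := by
      have : a = (c + e) * a := by rw [hce, one_mul]
      linear_combination -this
    rw [e1] at h1
    rw [e2] at h2
    linarith
  have he : ∀ s : ℝ, (fun s : ℝ => |a + s * x| ^ p + |a - s * x| ^ p) (-s) =
      (fun s : ℝ => |a + s * x| ^ p + |a - s * x| ^ p) s := by
    intro s
    simp only
    have e1 : a + -s * x = a - s * x := by ring
    have e2 : a - -s * x = a + s * x := by ring
    rw [e1, e2, add_comm]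
  have := GMN_mono hc he hs hst
  linarith

theorem t_gmn (h : GIC) (he : GEV) : GMN := by
  intro p a b s t hp hp2 ha hab hs hst
  have hp0 : 0 ≤ p := by linarith
  have h1 : GH p a s ≤ GH p b s := by
    obtain ⟨hc, hev, _⟩ := he p s hp hp2
    exact GMN_mono hc hev ha hab
  refine h1.trans ?_
  rw [GEV_half h hp0 hp2, GEV_half h hp0 hp2]
  have hint : ∀ s : ℝ, Integrable (fun x => (|b + s * x| ^ p + |b - s * x| ^ p) / 2) (gaussianReal 0 1) := by
    intro s
    have hi1 := GEV_int h hp0 hp2 b s
    have hi2 : Integrable (fun x => |b - s * x| ^ p) (gaussianReal 0 1) := by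
      have := GEV_int h hp0 hp2 b (-s)
      refine this.congr (Filter.Eventually.of_forall fun x => ?_)
      simp only
      congr 2
      ring
    exact (hi1.add hi2).div_const 2
  exact integral_mono (hint s) (hint t) fun x => GMN_pair hp b x hs hst

end Pool.Agent.helper43.KG
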