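import Pool.Agent.helper43.KG.Spec

set_option autoImplicit false

namespace Pool.Agent.helper43.KG

open Finset MeasureTheory ProbabilityTheory

theorem t_gsc : GSC := by
  intro p a s c hc
  unfold GH
  rw [← integral_const_mul]
  refine integral_congr_ae (Filter.Eventually.of_forall fun x => ?_)
  simp only
  have : c * a + c * s * x = c * (a + s * x) := by ring
  rw [this, abs_mul, abs_of_nonneg hc, Real.mul_rpow hc (abs_nonneg _)]

end Pool.Agent.helper43.KG
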