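import Pool.Agent.helper43.KG.GEV

set_option autoImplicit false

namespace Pool.Agent.helper43.KG

open Finset MeasureTheory ProbabilityTheory

theorem GUP_sq (x p : ℝ) : |x| ^ p = (x ^ 2) ^ (p / 2) := by
  rw [← sq_abs, ← Real.rpow_natCast, ← Real.rpow_mul (abs_nonneg x)]
  congr 1
  push_cast
  ring

theorem GUP_pt {p : ℝ} (hp : 1 ≤ p) (hp2 : p ≤ 2) (a b : ℝ) :
    (|a + b| ^ p + |a - b| ^ p) / 2 ≤ |a| ^ p + |b| ^ p := by
  rw [GUP_sq (a + b), GUP_sq (a - b), GUP_sq a, GUP_sq b]
  have h1 := (Real.concaveOn_rpow (by linarith : 0 ≤ p / 2) (by linarith : p / 2 ≤ 1)).2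
    (Set.mem_Ici.2 (sq_nonneg (a + b))) (Set.mem_Ici.2 (sq_nonneg (a - b)))
    (by norm_num : (0 : ℝ) ≤ 1 / 2) (by norm_num : (0 : ℝ) ≤ 1 / 2) (by norm_num)
  simp only [smul_eq_mul] at h1
  have h2 : 1 / 2 * (a + b) ^ 2 + 1 / 2 * (a - b) ^ 2 = a ^ 2 + b ^ 2 := by ring
  rw [h2] at h1
  have h3 := Real.rpow_add_le_add_rpow (sq_nonneg a) (sq_nonneg b) (by linarith : 0 ≤ p / 2)
    (by linarith : p / 2 ≤ 1)
  linarith

theorem GUP_one : ∫ x, x ^ 2 ∂(gaussianReal 0 1) = 1 := by
  have h1 := variance_fun_id_gaussianReal (μ := 0) (v := 1)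
  rw [variance_of_integral_eq_zero (by fun_prop) (by simp)] at h1
  simpa using h1

theorem t_gup (h : GIC) : GUP := by
  intro p hp hp2
  have hp0 : 0 ≤ p := by linarith
  have hint0 : Integrable (fun x : ℝ => |x| ^ p) (gaussianReal 0 1) := by
    have := GEV_int h hp0 hp2 0 1
    refine this.congr (Filter.Eventually.of_forall fun x => ?_)
    simp
  have hgam : gam p = ∫ x, |x| ^ p ∂(gaussianReal 0 1) := by
    unfold gam GH
    refine integral_congr_ae (Filter.Eventually.of_forall fun x => ?_)
    simp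
  refine ⟨?_, ?_, ?_⟩
  · intro a s hs
    rw [GEV_half h hp0 hp2, hgam, ← integral_const_mul]
    have hi1 := GEV_int h hp0 hp2 a s
    have hi2 : Integrable (fun x => |a - s * x| ^ p) (gaussianReal 0 1) := by
      have := GEV_int h hp0 hp2 a (-s)
      refine this.congr (Filter.Eventually.of_forall fun x => ?_)
      simp only
      congr 2
      ring
    have hc : |a| ^ p + ∫ x, s ^ p * |x| ^ p ∂(gaussianReal 0 1) =
        ∫ x, (|a| ^ p + s ^ p * |x| ^ p) ∂(gaussianReal 0 1) := by
      rw [integral_add (integrable_const _) (hint0.const_mul _)]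
      simp
    rw [hc]
    refine integral_mono ((hi1.add hi2).div_const 2) ((integrable_const _).add (hint0.const_mul _)) fun x => ?_
    simp only [Pi.add_apply]
    have h1 := GUP_pt hp hp2 a (s * x)
    rw [abs_mul s x, abs_of_nonneg hs, Real.mul_rpow hs (abs_nonneg _)] at h1
    exact h1
  · rw [hgam]
    have h2 : Integrable (fun x : ℝ => x ^ 2) (gaussianReal 0 1) := by
      have := (memLp_id_gaussianReal (μ := 0) (v := 1) 2).integrable_sq
      simpa using this
    calc ∫ x, |x| ^ p ∂(gaussianReal 0 1) ≤ ∫ x, ((1 - p / 2) + p / 2 * x ^ 2) ∂(gaussianReal 0 1) := by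
          refine integral_mono hint0 ((integrable_const _).add (h2.const_mul _)) fun x => ?_
          simp only
          rw [GUP_sq]
          have := rpow_one_add_le_one_add_mul_self (s := x ^ 2 - 1) (by nlinarith [sq_nonneg x])
            (by linarith : 0 ≤ p / 2) (by linarith : p / 2 ≤ 1)
          have e : 1 + (x ^ 2 - 1) = x ^ 2 := by ring
          rw [e] at this
          linarith
      _ = 1 := by
          rw [integral_add (integrable_const _) (h2.const_mul _), integral_const_mul, GUP_one]
          simp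
  · rw [hgam]
    rw [integral_pos_iff_support_of_nonneg (fun x => Real.rpow_nonneg (abs_nonneg _) _) hint0]
    have h1 : ({0}ᶜ : Set ℝ) ⊆ Function.support (fun x : ℝ => |x| ^ p) := by
      intro x hx
      rw [Function.mem_support]
      exact (Real.rpow_pos_of_pos (abs_pos.2 hx) _).ne'
    refine lt_of_lt_of_le ?_ (measure_mono h1)
    have : NullSingletonClass (gaussianReal 0 1) := nullSingletonClass_gaussianReal (by norm_num)
    rw [prob_compl_eq_one_sub (measurableSet_singleton 0), measure_singleton]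
    simp

end Pool.Agent.helper43.KG
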