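import Pool.Agent.helper43.KG.Spec

set_option autoImplicit false

namespace Pool.Agent.helper43.KG

open Finset MeasureTheory ProbabilityTheory

/-- the one step averaging operator -/
noncomputable def LIN_P (w f : ℝ) (ϕ : ℝ → ℝ) (x : ℝ) : ℝ :=
  (1 + f) / 2 * ϕ (x + w * (1 - f)) + (1 - f) / 2 * ϕ (x - w * (1 + f))

theorem LIN_smo {L w f : ℝ} {ϕ : ℝ → ℝ} (hS : Smo L ϕ) (hf : |f| ≤ 1) : Smo L (LIN_P w f ϕ) := by
  obtain ⟨hc, ⟨C, hC⟩, hT⟩ := hS
  obtain ⟨hf1, hf2⟩ := abs_le.1 hf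
  have hC0 : 0 ≤ C := by
    have := (abs_nonneg _).trans (hC 0)
    simpa using this
  have hp1 : 0 ≤ (1 + f) / 2 := by linarith
  have hp2 : 0 ≤ (1 - f) / 2 := by linarith
  refine ⟨?_, ⟨C * (2 + 2 * (w * (1 - f)) ^ 2 + 2 * (w * (1 + f)) ^ 2), ?_⟩, ?_⟩
  · unfold LIN_P
    fun_prop
  · intro x
    unfold LIN_P
    have h1 := hC (x + w * (1 - f))
    have h2 := hC (x - w * (1 + f))
    have h3 : C * (1 + (x + w * (1 - f)) ^ 2) ≤ C * ((2 + 2 * (w * (1 - f)) ^ 2 + 2 * (w * (1 + f)) ^ 2) * (1 + x ^ 2)) := by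
      refine mul_le_mul_of_nonneg_left ?_ hC0
      have e1 : 0 ≤ (w * (1 - f)) ^ 2 * x ^ 2 := by positivity
      have e2 : 0 ≤ (w * (1 + f)) ^ 2 * x ^ 2 := by positivity
      have e3 : 0 ≤ (w * (1 + f)) ^ 2 := by positivity
      nlinarith [sq_nonneg (x - w * (1 - f))]
    have h4 : C * (1 + (x - w * (1 + f)) ^ 2) ≤ C * ((2 + 2 * (w * (1 - f)) ^ 2 + 2 * (w * (1 + f)) ^ 2) * (1 + x ^ 2)) := by
      refine mul_le_mul_of_nonneg_left ?_ hC0
      have e1 : 0 ≤ (w * (1 - f)) ^ 2 * x ^ 2 := by positivity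
      have e2 : 0 ≤ (w * (1 + f)) ^ 2 * x ^ 2 := by positivity
      have e3 : 0 ≤ (w * (1 - f)) ^ 2 := by positivity
      nlinarith [sq_nonneg (x + w * (1 + f))]
    calc |(1 + f) / 2 * ϕ (x + w * (1 - f)) + (1 - f) / 2 * ϕ (x - w * (1 + f))|
        ≤ |(1 + f) / 2 * ϕ (x + w * (1 - f))| + |(1 - f) / 2 * ϕ (x - w * (1 + f))| := abs_add_le _ _
      _ = (1 + f) / 2 * |ϕ (x + w * (1 - f))| + (1 - f) / 2 * |ϕ (x - w * (1 + f))| := by
          rw [abs_mul, abs_mul, abs_of_nonneg hp1, abs_of_nonneg hp2]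
      _ ≤ (1 + f) / 2 * (C * ((2 + 2 * (w * (1 - f)) ^ 2 + 2 * (w * (1 + f)) ^ 2) * (1 + x ^ 2))) +
          (1 - f) / 2 * (C * ((2 + 2 * (w * (1 - f)) ^ 2 + 2 * (w * (1 + f)) ^ 2) * (1 + x ^ 2))) :=
          add_le_add (mul_le_mul_of_nonneg_left (h1.trans h3) hp1) (mul_le_mul_of_nonneg_left (h2.trans h4) hp2)
      _ = _ := by ring
  · intro x
    obtain ⟨A1, B1, h1⟩ := hT (x + w * (1 - f))
    obtain ⟨A2, B2, h2⟩ := hT (x - w * (1 + f))
    refine ⟨(1 + f) / 2 * A1 + (1 - f) / 2 * A2, (1 + f) / 2 * B1 + (1 - f) / 2 * B2, fun h => ?_⟩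
    have e1 := h1 h
    have e2 := h2 h
    have e3 : x + w * (1 - f) + h = x + h + w * (1 - f) := by ring
    have e4 : x - w * (1 + f) + h = x + h - w * (1 + f) := by ring
    rw [e3] at e1
    rw [e4] at e2
    have e5 : LIN_P w f ϕ (x + h) - LIN_P w f ϕ x - ((1 + f) / 2 * A1 + (1 - f) / 2 * A2) * h -
        ((1 + f) / 2 * B1 + (1 - f) / 2 * B2) * h ^ 2 =
        (1 + f) / 2 * (ϕ (x + h + w * (1 - f)) - ϕ (x + w * (1 - f)) - A1 * h - B1 * h ^ 2) +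
        (1 - f) / 2 * (ϕ (x + h - w * (1 + f)) - ϕ (x - w * (1 + f)) - A2 * h - B2 * h ^ 2) := by
      unfold LIN_P; ring
    rw [e5]
    calc |(1 + f) / 2 * (ϕ (x + h + w * (1 - f)) - ϕ (x + w * (1 - f)) - A1 * h - B1 * h ^ 2) +
          (1 - f) / 2 * (ϕ (x + h - w * (1 + f)) - ϕ (x - w * (1 + f)) - A2 * h - B2 * h ^ 2)|
        ≤ |(1 + f) / 2 * (ϕ (x + h + w * (1 - f)) - ϕ (x + w * (1 - f)) - A1 * h - B1 * h ^ 2)| +
          |(1 - f) / 2 * (ϕ (x + h - w * (1 + f)) - ϕ (x - w * (1 + f)) - A2 * h - B2 * h ^ 2)| := abs_add_le _ _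
      _ = (1 + f) / 2 * |ϕ (x + h + w * (1 - f)) - ϕ (x + w * (1 - f)) - A1 * h - B1 * h ^ 2| +
          (1 - f) / 2 * |ϕ (x + h - w * (1 + f)) - ϕ (x - w * (1 + f)) - A2 * h - B2 * h ^ 2| := by
          rw [abs_mul, abs_mul, abs_of_nonneg hp1, abs_of_nonneg hp2]
      _ ≤ (1 + f) / 2 * (L * |h| ^ 3) + (1 - f) / 2 * (L * |h| ^ 3) :=
          add_le_add (mul_le_mul_of_nonneg_left e1 hp1) (mul_le_mul_of_nonneg_left e2 hp2)
      _ = L * |h| ^ 3 := by ring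

theorem t_lin (h : GIC) (h1 : ONE) (hc : CNV) : LIN := by
  intro L ι _ s f w ϕ a hS hf
  induction s using Finset.induction_on generalizing ϕ a with
  | empty =>
    rw [EE_empty]
    simp
  | insert j s hj ih =>
    have hfj : |f j| ≤ 1 := hf j (mem_insert_self _ _)
    have hfs : ∀ i ∈ s, |f i| ≤ 1 := fun i hi => hf i (mem_insert_of_mem hi)
    have hψ := LIN_smo (w := w j) hS hfj
    have e1 : EE (insert j s) f (fun U => ϕ (a + ∑ i ∈ insert j s, w i * (sg U i - f i))) =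
        EE s f (fun U => LIN_P (w j) (f j) ϕ (a + ∑ i ∈ s, w i * (sg U i - f i))) := by
      rw [EE_insert hj, ← EE_mul, ← EE_mul, ← EE_add]
      refine EE_congr fun U hU => ?_
      have hjU : j ∉ U := fun h => hj (hU h)
      unfold LIN_P
      have e2 : a + ∑ i ∈ insert j s, w i * (sg (insert j U) i - f i) =
          a + ∑ i ∈ s, w i * (sg U i - f i) + w j * (1 - f j) := by
        rw [Finset.sum_insert hj, sg_insert_self]
        have : ∑ i ∈ s, w i * (sg (insert j U) i - f i) = ∑ i ∈ s, w i * (sg U i - f i) :=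
          Finset.sum_congr rfl fun i hi => by
            have hne : i ≠ j := fun h => hj (h ▸ hi)
            rw [sg_insert_ne U hne]
        rw [this]; ring
      have e3 : a + ∑ i ∈ insert j s, w i * (sg U i - f i) =
          a + ∑ i ∈ s, w i * (sg U i - f i) - w j * (1 + f j) := by
        rw [Finset.sum_insert hj, sg_notMem hjU]
        ring
      rw [e2, e3]
    rw [e1]
    have hI := ih (LIN_P (w j) (f j) ϕ) a hψ hfs
    set σ := Real.sqrt (∑ i ∈ s, w i ^ 2 * (1 - f i ^ 2)) with hσ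
    set τ := |w j| * Real.sqrt (1 - f j ^ 2) with hτ
    obtain ⟨hcϕ, ⟨C, hC⟩, hTϕ⟩ := hS
    have hfj2 : 0 ≤ 1 - f j ^ 2 := by
      have := abs_le.1 hfj
      nlinarith
    have hsum0 : 0 ≤ ∑ i ∈ s, w i ^ 2 * (1 - f i ^ 2) := by
      refine Finset.sum_nonneg fun i hi => mul_nonneg (sq_nonneg _) ?_
      have := abs_le.1 (hfs i hi)
      nlinarith
    have e4 : Real.sqrt (σ ^ 2 + τ ^ 2) = Real.sqrt (∑ i ∈ insert j s, w i ^ 2 * (1 - f i ^ 2)) := by
      congr 1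
      rw [Finset.sum_insert hj, hσ, hτ, Real.sq_sqrt hsum0, mul_pow, Real.sq_sqrt hfj2, sq_abs]
      ring
    have hcnv := hc ϕ C a σ τ hcϕ hC
    rw [e4] at hcnv
    rw [← hcnv]
    have hpt : ∀ x : ℝ, |LIN_P (w j) (f j) ϕ (a + σ * x) -
        ∫ y, ϕ (a + σ * x + τ * y) ∂(gaussianReal 0 1)| ≤ 3 * L * |w j| ^ 3 := by
      intro x
      exact h1 L ϕ (a + σ * x) (w j) (f j) ⟨hcϕ, ⟨C, hC⟩, hTϕ⟩ hfj
    obtain ⟨hcψ, ⟨C', hC'⟩, _⟩ := hψ
    have hint1 : Integrable (fun x => LIN_P (w j) (f j) ϕ (a + σ * x)) (gaussianReal 0 1) :=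
      h _ C' a σ hcψ hC'
    have hC0 : 0 ≤ C := by
      have := (abs_nonneg _).trans (hC 0)
      simpa using this
    -- the inner integral is integrable: it is measurable and close to an integrable function
    have hmeas : AEStronglyMeasurable (fun x => ∫ y, ϕ (a + σ * x + τ * y) ∂(gaussianReal 0 1)) (gaussianReal 0 1) := by
      have hcont : Continuous (fun z : ℝ × ℝ => ϕ (a + σ * z.1 + τ * z.2)) := by fun_prop
      exact (hcont.stronglyMeasurable.integral_prod_right (ν := gaussianReal 0 1)).aestronglyMeasurable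
    have hint2 : Integrable (fun x => ∫ y, ϕ (a + σ * x + τ * y) ∂(gaussianReal 0 1)) (gaussianReal 0 1) := by
      refine (hint1.abs.add (integrable_const (3 * L * |w j| ^ 3))).mono' hmeas
        (Filter.Eventually.of_forall fun x => ?_)
      rw [Real.norm_eq_abs]
      have e5 := hpt x
      have e6 := abs_sub_abs_le_abs_sub (∫ y, ϕ (a + σ * x + τ * y) ∂(gaussianReal 0 1))
        (LIN_P (w j) (f j) ϕ (a + σ * x))
      rw [abs_sub_comm] at e6
      simp only [Pi.add_apply]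
      linarith
    have hdiff : |∫ x, LIN_P (w j) (f j) ϕ (a + σ * x) ∂(gaussianReal 0 1) -
        ∫ x, (∫ y, ϕ (a + σ * x + τ * y) ∂(gaussianReal 0 1)) ∂(gaussianReal 0 1)| ≤ 3 * L * |w j| ^ 3 := by
      rw [← integral_sub hint1 hint2]
      calc |∫ x, (LIN_P (w j) (f j) ϕ (a + σ * x) - ∫ y, ϕ (a + σ * x + τ * y) ∂(gaussianReal 0 1)) ∂(gaussianReal 0 1)|
          ≤ ∫ x, |LIN_P (w j) (f j) ϕ (a + σ * x) - ∫ y, ϕ (a + σ * x + τ * y) ∂(gaussianReal 0 1)| ∂(gaussianReal 0 1) :=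
            abs_integral_le_integral_abs
        _ ≤ ∫ _x, 3 * L * |w j| ^ 3 ∂(gaussianReal 0 1) :=
            integral_mono (hint1.sub hint2).abs (integrable_const _) hpt
        _ = 3 * L * |w j| ^ 3 := by simp
    rw [Finset.sum_insert hj]
    calc _ ≤ |EE s f (fun U => LIN_P (w j) (f j) ϕ (a + ∑ i ∈ s, w i * (sg U i - f i))) -
          ∫ x, LIN_P (w j) (f j) ϕ (a + σ * x) ∂(gaussianReal 0 1)| +
        |∫ x, LIN_P (w j) (f j) ϕ (a + σ * x) ∂(gaussianReal 0 1) -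
          ∫ x, (∫ y, ϕ (a + σ * x + τ * y) ∂(gaussianReal 0 1)) ∂(gaussianReal 0 1)| := abs_sub_le _ _ _
      _ ≤ 3 * L * ∑ i ∈ s, |w i| ^ 3 + 3 * L * |w j| ^ 3 := add_le_add hI hdiff
      _ = _ := by ring

end Pool.Agent.helper43.KG
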