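import Pool.Agent.helper43.KG.Spec

set_option autoImplicit false

namespace Pool.Agent.helper43.KG

open Finset MeasureTheory ProbabilityTheory

theorem t_mai (hr : ROW) (hs : STR) (hn : NUM) (hu : GUP) : MAI := by
  intro p r hp hp2 hr1 hr2
  obtain ⟨ω, ρ, hω, hρ, hρc, hρv, hG⟩ := hn p hp hp2
  obtain ⟨ε, hε, dS, hS⟩ := hs p ω ρ hp hp2 hω hρ hρc hρv
  obtain ⟨δ₁, hδ₁, dR, hR⟩ := hr p r ε hp hp2 hr1 hr2 hε
  set δ := min (min (ε * δ₁ / 4) (ρ / 4)) 1 with hδ
  have hδ0 : 0 < δ := lt_min (lt_min (by positivity) (by positivity)) one_pos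
  have hδ1 : δ ≤ ε * δ₁ / 4 := (min_le_left _ _).trans (min_le_left _ _)
  have hδ2 : δ ≤ ρ / 4 := (min_le_left _ _).trans (min_le_right _ _)
  have hδ3 : δ ≤ 1 := min_le_right _ _
  obtain ⟨_, _, dL, hL⟩ := hr p r δ hp hp2 hr1 hr2 hδ0
  obtain ⟨_, hgam1, hgam0⟩ := hu p hp hp2.le
  refine ⟨δ, hδ0, max (max dS dR) (dL + 1), ?_⟩
  intro d hd T hT
  have hdS : dS ≤ d := (le_max_left _ _).trans ((le_max_left _ _).trans hd)
  have hdR : dR ≤ d := (le_max_right _ _).trans ((le_max_left _ _).trans hd)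
  have hdL : dL + 1 ≤ d := (le_max_right _ _).trans hd
  have hd1 : 1 ≤ d := by omega
  have hd0 : (0 : ℝ) < d := by exact_mod_cast hd1
  by_contra hcon
  push Not at hcon
  have hr0 : (0 : ℝ) < r := by linarith
  have hp0 : (0 : ℝ) < p := by linarith
  -- scaling
  set Q : Fin d → ℝ := fun i => ∑ j, |T i j| ^ r with hQ
  have hQd : ∀ i, (d : ℝ) ≤ Q i := hT
  set s : Fin d → ℝ := fun i => (Q i / d) ^ (1 / r) with hsdef
  have hs1 : ∀ i, 1 ≤ s i := fun i =>
    Real.one_le_rpow (by rw [le_div_iff₀ hd0, one_mul]; exact hQd i) (by positivity)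
  have hs0 : ∀ i, 0 < s i := fun i => lt_of_lt_of_le one_pos (hs1 i)
  have hsr : ∀ i, s i ^ r = Q i / d := by
    intro i
    have h0 : 0 ≤ Q i / d := by have := hQd i; positivity
    rw [hsdef]
    simp only
    rw [← Real.rpow_mul h0, one_div_mul_cancel hr0.ne', Real.rpow_one]
  set T' : Fin d → Fin d → ℝ := fun i j => T i j / s i with hT'
  have hT'r : ∀ i, ∑ j, |T' i j| ^ r = d := by
    intro i
    have h1 : ∀ j, |T' i j| ^ r = |T i j| ^ r / s i ^ r := by
      intro j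
      rw [hT']
      simp only
      rw [abs_div, abs_of_pos (hs0 i), Real.div_rpow (abs_nonneg _) (hs0 i).le]
    simp only [h1]
    rw [← Finset.sum_div, hsr]
    have hQ0 : 0 < Q i := lt_of_lt_of_le hd0 (hQd i)
    change Q i / (Q i / d) = d
    field_simp
  have hle : ∀ i (X : Finset (Fin d)), |∑ j, T' i j * sg X j| ^ p ≤ |∑ j, T i j * sg X j| ^ p := by
    intro i X
    have h1 : ∑ j, T' i j * sg X j = (∑ j, T i j * sg X j) / s i := by
      rw [Finset.sum_div]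
      exact Finset.sum_congr rfl fun j _ => by rw [hT']; simp only; ring
    rw [h1, abs_div, abs_of_pos (hs0 i)]
    refine Real.rpow_le_rpow (by positivity) ?_ hp0.le
    exact div_le_self (abs_nonneg _) (hs1 i)
  have hlt : ∀ X : Finset (Fin d), ∑ i, |∑ j, T' i j * sg X j| ^ p < (gam p + δ) * (d : ℝ) ^ (1 + p / 2) :=
    fun X => lt_of_le_of_lt (Finset.sum_le_sum fun i _ => hle i X) (hcon X)
  have hpos : 0 < (d : ℝ) ^ (p / 2) := Real.rpow_pos_of_pos hd0 _
  have hpow : (d : ℝ) ^ (1 + p / 2) = d * (d : ℝ) ^ (p / 2) := by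
    rw [Real.rpow_add hd0, Real.rpow_one]
  -- averages of the rows
  set E : Fin d → ℝ := fun i => EE univ (fun _ => 0) (fun U => |∑ j, T' i j * sg U j| ^ p) with hE
  have hz : ∀ j ∈ (univ : Finset (Fin d)), |(fun _ => (0 : ℝ)) j| ≤ 1 := by intro j _; simp
  have hEsum : ∑ i, E i ≤ (gam p + δ) * (d : ℝ) ^ (1 + p / 2) := by
    have h1 : ∑ i, E i = EE univ (fun _ => 0) (fun U => ∑ i, |∑ j, T' i j * sg U j| ^ p) :=
      (EE_sum _ _ _ _).symm
    rw [h1]
    have h2 := EE_mono hz (F := fun U => ∑ i, |∑ j, T' i j * sg U j| ^ p)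
      (F' := fun _ => (gam p + δ) * (d : ℝ) ^ (1 + p / 2)) (fun U _ => (hlt U).le)
    rwa [EE_const] at h2
  have hElow : ∀ i, (gam p - δ) * (d : ℝ) ^ (p / 2) ≤ E i := fun i =>
    (hL d (by omega) (T' i) (hT'r i)).1
  set G : Finset (Fin d) := univ.filter (fun i => E i ≤ (gam p + δ₁) * (d : ℝ) ^ (p / 2)) with hGdef
  have hcompl : δ₁ * ((univ \ G).card : ℝ) ≤ 2 * δ * d := by
    have h1 : ∑ i, (E i - (gam p - δ) * (d : ℝ) ^ (p / 2)) ≤ 2 * δ * d * (d : ℝ) ^ (p / 2) := by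
      rw [Finset.sum_sub_distrib, Finset.sum_const, Finset.card_univ, Fintype.card_fin, nsmul_eq_mul]
      rw [hpow] at hEsum
      nlinarith
    have h2 : ∑ i ∈ univ \ G, δ₁ * (d : ℝ) ^ (p / 2) ≤ ∑ i, (E i - (gam p - δ) * (d : ℝ) ^ (p / 2)) := by
      calc ∑ i ∈ univ \ G, δ₁ * (d : ℝ) ^ (p / 2)
          ≤ ∑ i ∈ univ \ G, (E i - (gam p - δ) * (d : ℝ) ^ (p / 2)) := by
            refine Finset.sum_le_sum fun i hi => ?_
            have h3 : ¬ (E i ≤ (gam p + δ₁) * (d : ℝ) ^ (p / 2)) := by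
              intro h
              exact (mem_sdiff.1 hi).2 (mem_filter.2 ⟨mem_univ _, h⟩)
            push Not at h3
            nlinarith
        _ ≤ ∑ i, (E i - (gam p - δ) * (d : ℝ) ^ (p / 2)) :=
            Finset.sum_le_sum_of_subset_of_nonneg (subset_univ _) fun i _ _ => by
              have := hElow i; linarith
    rw [Finset.sum_const, nsmul_eq_mul] at h2
    have h4 := h2.trans h1
    have h5 : δ₁ * ((univ \ G).card : ℝ) * (d : ℝ) ^ (p / 2) ≤ 2 * δ * d * (d : ℝ) ^ (p / 2) := by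
      linarith
    exact le_of_mul_le_mul_right h5 hpos
  have hGcard : (1 - ε) * d ≤ (G.card : ℝ) := by
    have h1 : ((univ \ G).card : ℝ) = d - G.card := by
      rw [Finset.card_sdiff_of_subset (subset_univ _), Finset.card_univ, Fintype.card_fin]
      rw [Nat.cast_sub (by simpa using Finset.card_le_univ G)]
    rw [h1] at hcompl
    have h2 : 2 * δ * d ≤ ε * δ₁ / 2 * d := by nlinarith
    have h3 : δ₁ * ((d : ℝ) - G.card) ≤ δ₁ * (ε * d) := by nlinarith
    have h4 := le_of_mul_le_mul_left h3 hδ₁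
    linarith
  have hrow : ∀ i ∈ G, ∑ j, |(|T' i j| - 1)| ≤ ε * d := fun i hi =>
    (hR d hdR (T' i) (hT'r i)).2 (mem_filter.1 hi).2
  have hsub : ∀ X : Finset (Fin d), ∑ i ∈ G, |∑ j, T' i j * sg X j| ^ p ≤ ∑ i, |∑ j, T' i j * sg X j| ^ p :=
    fun X => Finset.sum_le_sum_of_subset_of_nonneg (subset_univ _) fun i _ _ =>
      Real.rpow_nonneg (abs_nonneg _) _
  have hposd : 0 < (d : ℝ) ^ (1 + p / 2) := Real.rpow_pos_of_pos hd0 _
  obtain ⟨X, hX⟩ := hS d hdS T' G hGcard hrow (fun X => (hsub X).trans ((hlt X).le.trans (by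
    exact mul_le_mul_of_nonneg_right (by linarith) hposd.le)))
  have h1 := (hX.trans (hsub X)).trans_lt (hlt X)
  have h2 := lt_of_mul_lt_mul_right h1 hposd.le
  linarith

end Pool.Agent.helper43.KG
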