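import Pool.Agent.helper43.KG.Spec

set_option autoImplicit false

namespace Pool.Agent.helper43.KG

/-- `1 + t ≥ exp (t - t²/2)` for `t ≥ 0` -/
theorem NU0_exp {t : ℝ} (ht : 0 ≤ t) : Real.exp (t - t ^ 2 / 2) ≤ 1 + t := by
  have hanti : MonotoneOn (fun t : ℝ => Real.log (1 + t) - (t - t ^ 2 / 2)) (Set.Ici 0) := by
    apply monotoneOn_of_deriv_nonneg (convex_Ici 0)
    · intro x hx
      have hx0 : (0 : ℝ) ≤ x := hx
      have : (1 + x) ≠ 0 := by linarith
      exact (ContinuousAt.sub ((continuousAt_const.add continuousAt_id).log this)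
        (by fun_prop)).continuousWithinAt
    · intro x hx
      rw [interior_Ici] at hx
      have hx0 : (0 : ℝ) < x := hx
      have : (1 + x) ≠ 0 := by linarith
      exact (DifferentiableAt.sub ((differentiableAt_const _ |>.add differentiableAt_id).log this)
        (by fun_prop)).differentiableWithinAt
    · intro x hx
      rw [interior_Ici] at hx
      have hx0 : (0 : ℝ) < x := hx
      have hne : (1 + x) ≠ 0 := by linarith
      have h1 : HasDerivAt (fun t : ℝ => Real.log (1 + t) - (t - t ^ 2 / 2)) (1 / (1 + x) - (1 - x)) x := by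
        have h2 : HasDerivAt (fun t : ℝ => Real.log (1 + t)) (1 / (1 + x)) x :=
          ((hasDerivAt_id x).const_add 1).log hne
        have h3 : HasDerivAt (fun t : ℝ => t - t ^ 2 / 2) (1 - x) x := by
          have h4 := (hasDerivAt_id x).sub (((hasDerivAt_id x).pow 2).div_const 2)
          refine h4.congr_deriv ?_
          simp
        exact h2.sub h3
      rw [h1.deriv]
      have : 1 / (1 + x) - (1 - x) = x ^ 2 / (1 + x) := by field_simp; ring
      rw [this]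
      positivity
  have h := hanti (Set.mem_Ici.2 le_rfl) (Set.mem_Ici.2 ht) ht
  simp only [add_zero, Real.log_one] at h
  have h2 : t - t ^ 2 / 2 ≤ Real.log (1 + t) := by nlinarith
  calc Real.exp (t - t ^ 2 / 2) ≤ Real.exp (Real.log (1 + t)) := Real.exp_le_exp.2 h2
    _ = 1 + t := Real.exp_log (by linarith)

/-- the polynomial part -/
theorem NU0_poly {a z y q : ℝ} (ha : 1 / 2 ≤ a) (ha1 : a < 1) (hz : z = a * (1 - a) / 12)
    (hy1 : z * (1 - z ^ 2 / 2) ≤ y) (hy2 : y ≤ z) (hy0 : 0 ≤ y)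
    (hq : q = (2 * a + 1) * y / 2 + (2 * a + 1) * (2 * a + 3) * y ^ 2 / 24) :
    0 < q - q ^ 2 / 2 - a * z - y / 2 + a * (z ^ 2 / 2 - z ^ 4 / 8) := by
  have hz0 : 0 < z := by
    rw [hz]
    have : 0 < a * (1 - a) := mul_pos (by linarith) (by linarith)
    linarith
  have hz1 : z ≤ 1 / 48 := by
    rw [hz]
    nlinarith [sq_nonneg (a - 1 / 2)]
  -- q^2/2 bound
  have hb : (1 + (2 * a + 3) * y / 12) ^ 2 ≤ 1 + y := by
    have h1 : (2 * a + 3) * y / 12 ≤ 5 * y / 12 := by nlinarith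
    have h2 : 0 ≤ (2 * a + 3) * y / 12 := by positivity
    nlinarith
  have hqe : q = (2 * a + 1) * y / 2 * (1 + (2 * a + 3) * y / 12) := by rw [hq]; ring
  have hq2 : q ^ 2 / 2 ≤ (2 * a + 1) ^ 2 * y ^ 2 * (1 + y) / 8 := by
    have h3 : q ^ 2 = (2 * a + 1) ^ 2 * y ^ 2 / 4 * (1 + (2 * a + 3) * y / 12) ^ 2 := by rw [hqe]; ring
    rw [h3]
    have h4 : 0 ≤ (2 * a + 1) ^ 2 * y ^ 2 / 4 := by positivity
    nlinarith [mul_le_mul_of_nonneg_left hb h4]
  -- z - y ≤ z³/2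
  have hzy : z - y ≤ z ^ 3 / 2 := by nlinarith
  have h5 : q - y / 2 - a * z = -(a * (z - y)) + (2 * a + 1) * (2 * a + 3) * y ^ 2 / 24 := by
    rw [hq]; ring
  have h6 : a * (z - y) ≤ z ^ 3 / 2 := by
    have h7 : 0 ≤ z - y := by linarith
    nlinarith
  have h8 : (2 * a + 1) ^ 2 * y ^ 2 * (1 + y) / 8 ≤ (2 * a + 1) ^ 2 * y ^ 2 / 8 + 9 / 8 * z ^ 3 := by
    have h9 : (2 * a + 1) ^ 2 ≤ 9 := by nlinarith
    have h10 : y ^ 3 ≤ z ^ 3 := pow_le_pow_left₀ hy0 hy2 3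
    have h11 : (2 * a + 1) ^ 2 * y ^ 3 ≤ 9 * z ^ 3 :=
      mul_le_mul h9 h10 (by positivity) (by norm_num)
    nlinarith
  have h12 : y ^ 2 ≤ z ^ 2 := pow_le_pow_left₀ hy0 hy2 2
  have h13 : a * (2 * a + 1) * y ^ 2 / 6 ≤ a * (2 * a + 1) * z ^ 2 / 6 := by
    have : 0 ≤ a * (2 * a + 1) := by positivity
    nlinarith [mul_le_mul_of_nonneg_left h12 this]
  have h14 : (2 * a + 1) * (2 * a + 3) * y ^ 2 / 24 - (2 * a + 1) ^ 2 * y ^ 2 / 8 =
      -(a * (2 * a + 1) * y ^ 2 / 6) := by ring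
  have h15 : a * z ^ 4 / 8 ≤ z ^ 3 / 8 := by
    have h16 : a * z ≤ 1 := by nlinarith
    have h17 : 0 ≤ z ^ 3 := by positivity
    nlinarith [mul_le_mul_of_nonneg_right h16 h17]
  have h18 : a * z ^ 2 / 2 - a * (2 * a + 1) * z ^ 2 / 6 = z ^ 2 * (a * (1 - a) / 3) := by ring
  have h19 : a * (1 - a) / 3 = 4 * z := by rw [hz]; ring
  have h20 : 0 < z ^ 3 := by positivity
  have h21 : z ^ 2 * (4 * z) = 4 * z ^ 3 := by ring
  rw [h19, h21] at h18
  have h22 : a * (z ^ 2 / 2 - z ^ 4 / 8) = a * z ^ 2 / 2 - a * z ^ 4 / 8 := by ring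
  rw [h22]
  linarith

theorem t_nu0 : NU0 := by
  intro p hp hp2
  set a := p / 2 with ha
  have ha1 : 1 / 2 ≤ a := by rw [ha]; linarith
  have ha2 : a < 1 := by rw [ha]; linarith
  set z := a * (1 - a) / 12 with hz
  have hz0 : 0 < z := by
    rw [hz]
    have : 0 < a * (1 - a) := mul_pos (by linarith) (by linarith)
    linarith
  have hch : 1 + z ^ 2 / 2 ≤ Real.cosh z := by
    have h1 : Real.cosh z = 1 + 2 * Real.sinh (z / 2) ^ 2 := by
      have h2 : z = 2 * (z / 2) := by ring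
      rw [h2, Real.cosh_two_mul, Real.cosh_sq, ← h2]
      ring
    have h3 : z / 2 ≤ Real.sinh (z / 2) := Real.self_le_sinh_iff.2 (by positivity)
    rw [h1]
    nlinarith
  have hch0 : 0 < Real.cosh z := Real.cosh_pos z
  have hch1 : 1 ≤ Real.cosh z := Real.one_le_cosh z
  refine ⟨z, z / Real.cosh z, hz0, rfl, ?_⟩
  set y := z / Real.cosh z with hy
  have hy0 : 0 ≤ y := by positivity
  have hyz : y ≤ z := div_le_self hz0.le hch1
  -- upper bound for cosh
  have hup : Real.cosh z * (1 - z ^ 2 / 2) ≤ 1 := by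
    have h1 : Real.cosh z ≤ Real.exp (z ^ 2 / 2) := Real.cosh_le_exp_half_sq z
    have h2 : 1 - z ^ 2 / 2 ≤ Real.exp (-(z ^ 2 / 2)) := by
      have := Real.add_one_le_exp (-(z ^ 2 / 2))
      linarith
    calc Real.cosh z * (1 - z ^ 2 / 2) ≤ Real.cosh z * Real.exp (-(z ^ 2 / 2)) :=
          mul_le_mul_of_nonneg_left h2 hch0.le
      _ ≤ Real.exp (z ^ 2 / 2) * Real.exp (-(z ^ 2 / 2)) :=
          mul_le_mul_of_nonneg_right h1 (Real.exp_pos _).le
      _ = 1 := by rw [← Real.exp_add]; simp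
  have hy1 : z * (1 - z ^ 2 / 2) ≤ y := by
    rw [hy, le_div_iff₀ hch0]
    nlinarith
  set q := (2 * a + 1) * y / 2 + (2 * a + 1) * (2 * a + 3) * y ^ 2 / 24 with hq
  have hq0 : 0 ≤ q := by positivity
  have hE := NU0_poly ha1 ha2 hz hy1 hyz hy0 hq
  have h1 : Real.exp (a * (z ^ 2 / 2 - z ^ 4 / 8)) ≤ Real.cosh z ^ a := by
    have h2 := (NU0_exp (by positivity : 0 ≤ z ^ 2 / 2)).trans hch
    have h3 : (z ^ 2 / 2) - (z ^ 2 / 2) ^ 2 / 2 = z ^ 2 / 2 - z ^ 4 / 8 := by ring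
    rw [h3] at h2
    have h4 := Real.rpow_le_rpow (Real.exp_pos _).le h2 (by linarith : 0 ≤ a)
    rwa [← Real.exp_mul, mul_comm] at h4
  have h5 := NU0_exp hq0
  have h6 : 1 + (p + 1) * y / 2 + (p + 1) * (p + 3) * y ^ 2 / 24 = 1 + q := by
    rw [hq, ha]; ring
  rw [h6]
  have h7 : Real.exp (q - q ^ 2 / 2 - a * z - y / 2 + a * (z ^ 2 / 2 - z ^ 4 / 8)) =
      Real.exp (-(a * z)) * Real.exp (a * (z ^ 2 / 2 - z ^ 4 / 8)) * Real.exp (-(y / 2)) *
        Real.exp (q - q ^ 2 / 2) := by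
    rw [← Real.exp_add, ← Real.exp_add, ← Real.exp_add]
    congr 1
    ring
  calc (1 : ℝ) < Real.exp (q - q ^ 2 / 2 - a * z - y / 2 + a * (z ^ 2 / 2 - z ^ 4 / 8)) :=
        Real.one_lt_exp_iff.2 hE
    _ = Real.exp (-(a * z)) * Real.exp (a * (z ^ 2 / 2 - z ^ 4 / 8)) * Real.exp (-(y / 2)) *
        Real.exp (q - q ^ 2 / 2) := h7
    _ ≤ Real.exp (-(a * z)) * Real.cosh z ^ a * Real.exp (-(y / 2)) * (1 + q) := by
        refine mul_le_mul ?_ h5 (Real.exp_pos _).le (by positivity)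
        refine mul_le_mul_of_nonneg_right ?_ (Real.exp_pos _).le
        exact mul_le_mul_of_nonneg_left h1 (Real.exp_pos _).le

end Pool.Agent.helper43.KG
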