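import Pool.Agent.helper43.KG.Spec

set_option autoImplicit false

namespace Pool.Agent.helper43.KG

open Finset MeasureTheory ProbabilityTheory

theorem ONE_cosh (z : ℝ) : 1 + z ^ 2 / 2 ≤ Real.cosh z := by
  have h1 : Real.cosh z = 1 + 2 * Real.sinh (z / 2) ^ 2 := by
    have h2 : z = 2 * (z / 2) := by ring
    rw [h2, Real.cosh_two_mul, Real.cosh_sq, ← h2]
    ring
  have h3 : (z / 2) ^ 2 ≤ Real.sinh (z / 2) ^ 2 := by
    rw [sq_le_sq]
    rcases le_total 0 (z / 2) with h | h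
    · rw [abs_of_nonneg h, abs_of_nonneg (Real.sinh_nonneg_iff.2 h)]
      exact Real.self_le_sinh_iff.2 h
    · rw [abs_of_nonpos h, abs_of_nonpos (Real.sinh_nonpos_iff.2 h)]
      have := Real.sinh_le_self_iff.2 h
      linarith
  rw [h1]
  nlinarith

theorem ONE_sinh {y : ℝ} (hy : 0 ≤ y) : y + y ^ 3 / 6 ≤ Real.sinh y := by
  have hanti : MonotoneOn (fun y : ℝ => Real.sinh y - (y + y ^ 3 / 6)) (Set.Ici 0) := by
    apply monotoneOn_of_deriv_nonneg (convex_Ici 0)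
    · exact (Continuous.sub Real.continuous_sinh (by fun_prop)).continuousOn
    · exact (Differentiable.sub Real.differentiable_sinh (by fun_prop)).differentiableOn
    · intro x _
      have h1 : HasDerivAt (fun y : ℝ => Real.sinh y - (y + y ^ 3 / 6)) (Real.cosh x - (1 + x ^ 2 / 2)) x := by
        have h3 : HasDerivAt (fun y : ℝ => y + y ^ 3 / 6) (1 + x ^ 2 / 2) x := by
          have h4 := (hasDerivAt_id x).add (((hasDerivAt_id x).pow 3).div_const 6)
          refine h4.congr_deriv ?_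
          simp
          ring
        exact (Real.hasDerivAt_sinh x).sub h3
      rw [h1.deriv]
      have := ONE_cosh x
      linarith
  have h := hanti (Set.mem_Ici.2 le_rfl) (Set.mem_Ici.2 hy) hy
  simp only [Real.sinh_zero] at h
  linarith

theorem ONE_cosh4 (z : ℝ) : 1 + z ^ 2 / 2 + z ^ 4 / 24 ≤ Real.cosh z := by
  wlog hz : 0 ≤ z with H
  · have := H (-z) (by linarith)
    rw [Real.cosh_neg] at this
    have e : 1 + (-z) ^ 2 / 2 + (-z) ^ 4 / 24 = 1 + z ^ 2 / 2 + z ^ 4 / 24 := by ring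
    rwa [e] at this
  have h1 : Real.cosh z = 1 + 2 * Real.sinh (z / 2) ^ 2 := by
    have h2 : z = 2 * (z / 2) := by ring
    rw [h2, Real.cosh_two_mul, Real.cosh_sq, ← h2]
    ring
  have h3 := ONE_sinh (by positivity : 0 ≤ z / 2)
  have h4 : (z / 2 + (z / 2) ^ 3 / 6) ^ 2 ≤ Real.sinh (z / 2) ^ 2 := pow_le_pow_left₀ (by positivity) h3 2
  rw [h1]
  have h5 : 0 ≤ z ^ 6 := by positivity
  nlinarith

theorem ONE_pt (x : ℝ) : |x| ^ 3 ≤ 6 * Real.cosh x - 6 - 2 * x ^ 2 := by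
  have h1 := ONE_cosh4 x
  have h2 : |x| ^ 3 ≤ x ^ 2 + x ^ 4 / 4 := by
    have e2 : x ^ 2 = |x| ^ 2 := (sq_abs x).symm
    have e4 : x ^ 4 = |x| ^ 4 := by
      have : x ^ 4 = (x ^ 2) ^ 2 := by ring
      rw [this, e2]; ring
    rw [e2, e4]
    nlinarith [sq_nonneg (|x| * (|x| - 2)), abs_nonneg x]
  linarith

theorem ONE_int_exp (t : ℝ) : Integrable (fun x => Real.exp (t * x)) (gaussianReal 0 1) :=
  integrable_exp_mul_gaussianReal t

theorem ONE_exp (t : ℝ) : ∫ x, Real.exp (t * x) ∂(gaussianReal 0 1) = Real.exp (t ^ 2 / 2) := by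
  have h := congrFun (mgf_fun_id_gaussianReal (μ := 0) (v := 1)) t
  unfold mgf at h
  rw [h]
  congr 1
  simp

theorem ONE_cosh_int : Integrable (fun x => Real.cosh x) (gaussianReal 0 1) := by
  have h1 := ONE_int_exp 1
  have h2 := ONE_int_exp (-1)
  refine ((h1.add h2).div_const 2).congr (Filter.Eventually.of_forall fun x => ?_)
  simp [Real.cosh_eq]

theorem ONE_cosh_val : ∫ x, Real.cosh x ∂(gaussianReal 0 1) = Real.exp (1 / 2) := by
  have h1 := ONE_int_exp 1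
  have h2 := ONE_int_exp (-1)
  have h3 : ∫ x, Real.cosh x ∂(gaussianReal 0 1) =
      ∫ x, (Real.exp (1 * x) + Real.exp (-1 * x)) / 2 ∂(gaussianReal 0 1) := by
    refine integral_congr_ae (Filter.Eventually.of_forall fun x => ?_)
    simp [Real.cosh_eq]
  rw [h3, integral_div, integral_add h1 h2, ONE_exp, ONE_exp]
  norm_num

theorem ONE_sq_int : Integrable (fun x : ℝ => x ^ 2) (gaussianReal 0 1) := by
  have := (memLp_id_gaussianReal (μ := 0) (v := 1) 2).integrable_sq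
  simpa using this

theorem ONE_sq : ∫ x, x ^ 2 ∂(gaussianReal 0 1) = 1 := by
  have h1 := variance_fun_id_gaussianReal (μ := 0) (v := 1)
  rw [variance_of_integral_eq_zero (by fun_prop) (by simp)] at h1
  simpa using h1

theorem ONE_cube_int : Integrable (fun x : ℝ => |x| ^ 3) (gaussianReal 0 1) := by
  refine (((ONE_cosh_int.const_mul 6).sub (integrable_const 6)).sub (ONE_sq_int.const_mul 2)).mono'
    (Continuous.aestronglyMeasurable (by fun_prop)) (Filter.Eventually.of_forall fun x => ?_)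
  rw [Real.norm_eq_abs, abs_of_nonneg (by positivity)]
  exact ONE_pt x

theorem ONE_cube : ∫ x, |x| ^ 3 ∂(gaussianReal 0 1) ≤ 2 := by
  have h1 : ∫ x, |x| ^ 3 ∂(gaussianReal 0 1) ≤
      ∫ x, (6 * Real.cosh x - 6 - 2 * x ^ 2) ∂(gaussianReal 0 1) :=
    integral_mono ONE_cube_int
      (((ONE_cosh_int.const_mul 6).sub (integrable_const 6)).sub (ONE_sq_int.const_mul 2)) ONE_pt
  have hI : Integrable (fun x : ℝ => 6 * Real.cosh x - 6) (gaussianReal 0 1) :=
    (ONE_cosh_int.const_mul 6).sub (integrable_const 6)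
  rw [integral_sub hI (ONE_sq_int.const_mul 2),
    integral_sub (ONE_cosh_int.const_mul 6) (integrable_const 6), integral_const_mul, integral_const_mul,
    ONE_cosh_val, ONE_sq, integral_const] at h1
  simp only [probReal_univ, one_smul, mul_one] at h1
  have h2 : Real.exp (1 / 2) ≤ 1.66 := by
    have h3 : Real.exp (1 / 2) ^ 2 ≤ 1.66 ^ 2 := by
      rw [← Real.exp_nat_mul]
      have := Real.exp_one_lt_d9
      norm_num
      norm_num at this
      linarith
    nlinarith [Real.exp_pos (1 / 2)]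
  linarith

theorem t_one (h : GIC) : ONE := by
  intro L ϕ a w f hS hf
  obtain ⟨hc, ⟨C, hC⟩, hT⟩ := hS
  obtain ⟨A, B, hAB⟩ := hT a
  have hL : 0 ≤ L := by
    have := (abs_nonneg _).trans (hAB 1)
    simpa using this
  obtain ⟨hf1, hf2⟩ := abs_le.1 hf
  have hff : 0 ≤ 1 - f ^ 2 := by nlinarith
  set σ := |w| * Real.sqrt (1 - f ^ 2) with hσ
  have hσ0 : 0 ≤ σ := by positivity
  have hσ2 : σ ^ 2 = w ^ 2 * (1 - f ^ 2) := by
    rw [hσ, mul_pow, Real.sq_sqrt hff, sq_abs]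
  have hσw : σ ≤ |w| := by
    rw [hσ]
    have : Real.sqrt (1 - f ^ 2) ≤ 1 := Real.sqrt_le_iff.2 ⟨by norm_num, by nlinarith [sq_nonneg f]⟩
    exact mul_le_of_le_one_right (abs_nonneg _) this
  have hw3 : 0 ≤ |w| ^ 3 := by positivity
  -- the discrete side
  have hP : |(1 + f) / 2 * ϕ (a + w * (1 - f)) + (1 - f) / 2 * ϕ (a - w * (1 + f)) -
      (ϕ a + B * σ ^ 2)| ≤ L * |w| ^ 3 := by
    have h1 := hAB (w * (1 - f))
    have h2 := hAB (-(w * (1 + f)))
    have e1 : |w * (1 - f)| ^ 3 = |w| ^ 3 * (1 - f) ^ 3 := by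
      rw [abs_mul, abs_of_nonneg (by linarith : 0 ≤ 1 - f), mul_pow]
    have e2 : |-(w * (1 + f))| ^ 3 = |w| ^ 3 * (1 + f) ^ 3 := by
      rw [abs_neg, abs_mul, abs_of_nonneg (by linarith : 0 ≤ 1 + f), mul_pow]
    rw [e1] at h1
    rw [e2] at h2
    have e3 : a + -(w * (1 + f)) = a - w * (1 + f) := by ring
    rw [e3] at h2
    set r1 := ϕ (a + w * (1 - f)) - ϕ a - A * (w * (1 - f)) - B * (w * (1 - f)) ^ 2 with hr1
    set r2 := ϕ (a - w * (1 + f)) - ϕ a - A * -(w * (1 + f)) - B * (-(w * (1 + f))) ^ 2 with hr2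
    have e4 : (1 + f) / 2 * ϕ (a + w * (1 - f)) + (1 - f) / 2 * ϕ (a - w * (1 + f)) - (ϕ a + B * σ ^ 2) =
        (1 + f) / 2 * r1 + (1 - f) / 2 * r2 := by
      rw [hr1, hr2, hσ2]; ring
    rw [e4]
    calc |(1 + f) / 2 * r1 + (1 - f) / 2 * r2| ≤ |(1 + f) / 2 * r1| + |(1 - f) / 2 * r2| := abs_add_le _ _
      _ = (1 + f) / 2 * |r1| + (1 - f) / 2 * |r2| := by
          rw [abs_mul, abs_mul, abs_of_nonneg (by linarith : 0 ≤ (1 + f) / 2),
            abs_of_nonneg (by linarith : 0 ≤ (1 - f) / 2)]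
      _ ≤ (1 + f) / 2 * (L * (|w| ^ 3 * (1 - f) ^ 3)) + (1 - f) / 2 * (L * (|w| ^ 3 * (1 + f) ^ 3)) :=
          add_le_add (mul_le_mul_of_nonneg_left h1 (by linarith)) (mul_le_mul_of_nonneg_left h2 (by linarith))
      _ = L * |w| ^ 3 * ((1 - f ^ 2) * (1 + f ^ 2)) := by ring
      _ ≤ L * |w| ^ 3 * 1 := by
          refine mul_le_mul_of_nonneg_left ?_ (by positivity)
          nlinarith [sq_nonneg (f ^ 2)]
      _ = L * |w| ^ 3 := mul_one _
  -- the Gaussian side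
  have hint : Integrable (fun x => ϕ (a + σ * x)) (gaussianReal 0 1) := h ϕ C a σ hc hC
  have hid : Integrable (fun x : ℝ => x) (gaussianReal 0 1) := by
    exact (memLp_id_gaussianReal (μ := 0) (v := 1) 1).integrable (by norm_num)
  have hQint : Integrable (fun x => ϕ a + A * σ * x + B * σ ^ 2 * x ^ 2) (gaussianReal 0 1) :=
    ((integrable_const _).add (hid.const_mul _)).add (ONE_sq_int.const_mul _)
  have hQval : ∫ x, (ϕ a + A * σ * x + B * σ ^ 2 * x ^ 2) ∂(gaussianReal 0 1) = ϕ a + B * σ ^ 2 := by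
    have hI : Integrable (fun x : ℝ => ϕ a + A * σ * x) (gaussianReal 0 1) :=
      (integrable_const _).add (hid.const_mul _)
    rw [integral_add hI (ONE_sq_int.const_mul _),
      integral_add (integrable_const _) (hid.const_mul _), integral_const_mul, integral_const_mul, ONE_sq]
    simp
  have hQ : |(ϕ a + B * σ ^ 2) - ∫ x, ϕ (a + σ * x) ∂(gaussianReal 0 1)| ≤ 2 * L * |w| ^ 3 := by
    rw [← hQval, ← integral_sub hQint hint]
    have h1 : ∀ x : ℝ, |(ϕ a + A * σ * x + B * σ ^ 2 * x ^ 2) - ϕ (a + σ * x)| ≤ L * σ ^ 3 * |x| ^ 3 := by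
      intro x
      have h2 := hAB (σ * x)
      rw [abs_mul σ x, abs_of_nonneg hσ0, mul_pow σ |x|] at h2
      rw [abs_sub_comm]
      have e : ϕ (a + σ * x) - (ϕ a + A * σ * x + B * σ ^ 2 * x ^ 2) =
          ϕ (a + σ * x) - ϕ a - A * (σ * x) - B * (σ * x) ^ 2 := by ring
      rw [e]
      linarith
    calc |∫ x, ((ϕ a + A * σ * x + B * σ ^ 2 * x ^ 2) - ϕ (a + σ * x)) ∂(gaussianReal 0 1)|
        ≤ ∫ x, |(ϕ a + A * σ * x + B * σ ^ 2 * x ^ 2) - ϕ (a + σ * x)| ∂(gaussianReal 0 1) :=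
          abs_integral_le_integral_abs
      _ ≤ ∫ x, L * σ ^ 3 * |x| ^ 3 ∂(gaussianReal 0 1) :=
          integral_mono (hQint.sub hint).abs (ONE_cube_int.const_mul _) h1
      _ = L * σ ^ 3 * ∫ x, |x| ^ 3 ∂(gaussianReal 0 1) := integral_const_mul _ _
      _ ≤ L * σ ^ 3 * 2 := mul_le_mul_of_nonneg_left ONE_cube (by positivity)
      _ ≤ L * |w| ^ 3 * 2 := by
          have : σ ^ 3 ≤ |w| ^ 3 := pow_le_pow_left₀ hσ0 hσw 3
          nlinarith [mul_le_mul_of_nonneg_left this hL]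
      _ = 2 * L * |w| ^ 3 := by ring
  calc |(1 + f) / 2 * ϕ (a + w * (1 - f)) + (1 - f) / 2 * ϕ (a - w * (1 + f)) -
        ∫ x, ϕ (a + σ * x) ∂(gaussianReal 0 1)|
      ≤ |(1 + f) / 2 * ϕ (a + w * (1 - f)) + (1 - f) / 2 * ϕ (a - w * (1 + f)) - (ϕ a + B * σ ^ 2)| +
        |(ϕ a + B * σ ^ 2) - ∫ x, ϕ (a + σ * x) ∂(gaussianReal 0 1)| := abs_sub_le _ _ _
    _ ≤ L * |w| ^ 3 + 2 * L * |w| ^ 3 := add_le_add hP hQ
    _ = 3 * L * |w| ^ 3 := by ring

end Pool.Agent.helper43.KG
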