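import Pool.Agent.helper43.KG.GEV

set_option autoImplicit false

namespace Pool.Agent.helper43.KG

open Finset MeasureTheory ProbabilityTheory

theorem t_st2 (h1 : ST1) (hu : GUP) : ST2 := by
  intro p ε hp hp2 hε
  obtain ⟨d₀, hd₀⟩ := h1 p ε hp hp2 hε
  refine ⟨d₀, fun d hd t f V₀ hf hV => ?_⟩
  split_ifs with h
  · have := hd₀ d hd t f V₀ hf hV h
    linarith
  · have h2 := EE_jensen (s := univ) (f := f) (fun j _ => hf j) (GEV_conv hp)
      (fun X => ∑ j, t j * sg X j)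
    have h3 : EE univ f (fun X => ∑ j, t j * sg X j) = ∑ j, t j * f j := by
      rw [EE_sum]
      exact Finset.sum_congr rfl fun j _ => by rw [EE_mul, EE_sg f (mem_univ j)]
    rw [h3] at h2
    obtain ⟨h4, h5, h6⟩ := hu p hp hp2.le
    have h7 := h4 (∑ j, t j * f j) (Real.sqrt V₀) (Real.sqrt_nonneg _)
    have h8 : Real.sqrt V₀ ^ p = V₀ ^ (p / 2) := by
      rw [Real.sqrt_eq_rpow, ← Real.rpow_mul hV]
      congr 1
      ring
    rw [h8] at h7
    have h9 : V₀ ^ (p / 2) * gam p ≤ V₀ ^ (p / 2) * 1 :=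
      mul_le_mul_of_nonneg_left h5 (Real.rpow_nonneg hV _)
    have h10 : 0 ≤ ε * (d : ℝ) ^ (p / 2) := mul_nonneg hε.le (Real.rpow_nonneg (Nat.cast_nonneg _) _)
    linarith

end Pool.Agent.helper43.KG
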