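import Pool.Agent.helper43.KG.Spec

set_option autoImplicit false

namespace Pool.Agent.helper43.KG

open Finset MeasureTheory ProbabilityTheory

theorem STR_c_le (ω : ℝ) : ω * Real.exp (-(ω ^ 2 / 2)) ≤ 1 := by
  have h1 : ω ≤ Real.exp (ω ^ 2 / 2) := by
    have := Real.add_one_le_exp (ω ^ 2 / 2)
    nlinarith [sq_nonneg (ω - 1)]
  rw [Real.exp_neg]
  rw [mul_inv_le_iff₀ (Real.exp_pos _)]
  linarith

theorem STR_v_le (ω : ℝ) : (1 + Real.exp (-(2 * ω ^ 2))) / 2 ≤ 1 := by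
  have : Real.exp (-(2 * ω ^ 2)) ≤ 1 := Real.exp_le_one_iff.2 (by nlinarith [sq_nonneg ω])
  linarith

theorem STR_sn (x : ℝ) : sn x = 1 ∨ sn x = -1 := by
  unfold sn; split_ifs
  · exact Or.inl rfl
  · exact Or.inr rfl

/-- the means -/
noncomputable def STR_f {d : ℕ} (T : Fin d → Fin d → ℝ) (G : Finset (Fin d)) (ω : ℝ) (U : Finset (Fin d))
    (j : Fin d) : ℝ := Real.sin (ω / Real.sqrt G.card * ∑ k ∈ G, sn (T k j) * sg U k)

noncomputable def STR_W {d : ℕ} (T : Fin d → Fin d → ℝ) (G : Finset (Fin d)) (ω : ℝ) (U : Finset (Fin d)) : ℝ :=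
  ∑ j, Real.cos (2 * ω / Real.sqrt G.card * ∑ k ∈ G, sn (T k j) * sg U k)

theorem STR_f_le {d : ℕ} (T : Fin d → Fin d → ℝ) (G : Finset (Fin d)) (ω : ℝ) (U : Finset (Fin d))
    (j : Fin d) : |STR_f T G ω U j| ≤ 1 := Real.abs_sin_le_one _

theorem STR_sum {d : ℕ} (T : Fin d → Fin d → ℝ) (G : Finset (Fin d)) (ω : ℝ) (U : Finset (Fin d)) :
    ∑ j, (1 - STR_f T G ω U j ^ 2) = ((d : ℝ) + STR_W T G ω U) / 2 := by
  have h : ∀ j, 1 - STR_f T G ω U j ^ 2 =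
      1 / 2 + Real.cos (2 * ω / Real.sqrt G.card * ∑ k ∈ G, sn (T k j) * sg U k) / 2 := by
    intro j
    have h1 : 2 * ω / Real.sqrt G.card * ∑ k ∈ G, sn (T k j) * sg U k =
        2 * (ω / Real.sqrt G.card * ∑ k ∈ G, sn (T k j) * sg U k) := by ring
    rw [h1, Real.cos_two_mul]
    unfold STR_f
    have := Real.sin_sq_add_cos_sq (ω / Real.sqrt G.card * ∑ k ∈ G, sn (T k j) * sg U k)
    linarith
  simp only [h]
  rw [Finset.sum_add_distrib, Finset.sum_const, Finset.card_univ, Fintype.card_fin, ← Finset.sum_div]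
  unfold STR_W
  rw [nsmul_eq_mul]
  ring

/-- the error term of ST2 is dominated by the fluctuation of `W` -/
theorem STR_bad {p ρ ε v E2 cN W d V₀ S R : ℝ} (hρ : 0 < ρ) (hd : 0 < d) (hp : 0 ≤ p)
    (hv : v = (1 + E2) / 2) (hρv : ρ < v) (hv1 : v ≤ 1) (hε : ε ≤ ρ / 16) (hV : V₀ = (v - ρ) * d)
    (hS : S = (d + W) / 2) (hR : R ≤ ε * d) (hc : E2 - ρ / 4 ≤ cN) :
    (if V₀ ≤ S - 2 * R then 0 else V₀ ^ (p / 2)) ≤
      d ^ (p / 2) * (4 / (ρ ^ 2 * d ^ 2)) * (W - d * cN) ^ 2 := by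
  have hpos : 0 ≤ d ^ (p / 2) := Real.rpow_nonneg hd.le _
  split_ifs with h
  · positivity
  · push Not at h
    have hV0 : 0 ≤ V₀ := by rw [hV]; exact mul_nonneg (by linarith) hd.le
    have hVd : V₀ ≤ d := by rw [hV]; nlinarith
    have h1 : V₀ ^ (p / 2) ≤ d ^ (p / 2) := Real.rpow_le_rpow hV0 hVd (by linarith)
    have h2 : ρ * d / 2 ≤ d * cN - W := by
      rw [hV, hS, hv] at h
      have h3 : ε * d ≤ ρ / 16 * d := mul_le_mul_of_nonneg_right hε hd.le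
      have h4 : (E2 - ρ / 4) * d ≤ cN * d := mul_le_mul_of_nonneg_right hc hd.le
      have h5 : 0 < ρ * d := mul_pos hρ hd
      nlinarith
    have h3 : (ρ * d / 2) ^ 2 ≤ (W - d * cN) ^ 2 := by
      have h5 : 0 < ρ * d := mul_pos hρ hd
      nlinarith
    have h4 : 1 ≤ 4 / (ρ ^ 2 * d ^ 2) * (W - d * cN) ^ 2 := by
      rw [div_mul_eq_mul_div, le_div_iff₀ (by positivity)]
      nlinarith
    calc V₀ ^ (p / 2) ≤ d ^ (p / 2) * 1 := by rw [mul_one]; exact h1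
      _ ≤ d ^ (p / 2) * (4 / (ρ ^ 2 * d ^ 2) * (W - d * cN) ^ 2) := mul_le_mul_of_nonneg_left h4 hpos
      _ = _ := by ring

/-- the size of the fluctuation term -/
theorem STR_num {ρ ε D d N M V : ℝ} (hρ : 0 < ρ) (hD : 1 ≤ D) (hd : 0 < d) (hN : d / 2 ≤ N)
    (hε0 : 0 ≤ ε) (hε : ε ≤ ρ ^ 3 / (256 * D)) (hbig : 1280 * D / ρ ^ 3 ≤ Real.sqrt d)
    (hM : M = 5 * d ^ (3 / 2 : ℝ) + ε * d ^ 2) (hV : V ≤ (D - 1) * (d * M / N)) :
    4 / (ρ ^ 2 * d ^ 2) * V ≤ ρ / 16 := by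
  have hN0 : 0 < N := by linarith
  have hs : 0 < Real.sqrt d := Real.sqrt_pos.2 hd
  have hss : Real.sqrt d * Real.sqrt d = d := Real.mul_self_sqrt hd.le
  have h32 : d ^ (3 / 2 : ℝ) = d * Real.sqrt d := by
    rw [Real.sqrt_eq_rpow, ← Real.rpow_one_add' hd.le (by norm_num)]
    norm_num
  have hM0 : 0 ≤ M := by rw [hM]; positivity
  have h1 : d * M / N ≤ 2 * M := by
    rw [div_le_iff₀ hN0]
    nlinarith
  have h2 : V ≤ D * (2 * M) := by
    calc V ≤ (D - 1) * (d * M / N) := hV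
      _ ≤ (D - 1) * (2 * M) := mul_le_mul_of_nonneg_left h1 (by linarith)
      _ ≤ D * (2 * M) := by nlinarith
  have h3 : 4 / (ρ ^ 2 * d ^ 2) * V ≤ 4 / (ρ ^ 2 * d ^ 2) * (D * (2 * M)) :=
    mul_le_mul_of_nonneg_left h2 (by positivity)
  refine h3.trans ?_
  rw [div_mul_eq_mul_div, div_le_iff₀ (by positivity), hM, h32]
  -- 4 * (D * (2 * (5 * (d * √d) + ε d²))) ≤ ρ/16 * (ρ² d²)
  have h4 : ε * (256 * D) ≤ ρ ^ 3 := by rwa [le_div_iff₀ (by positivity)] at hε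
  have h5 : 1280 * D ≤ Real.sqrt d * ρ ^ 3 := by rwa [div_le_iff₀ (by positivity)] at hbig
  have h6 : d * Real.sqrt d * (1280 * D) ≤ d * Real.sqrt d * (Real.sqrt d * ρ ^ 3) :=
    mul_le_mul_of_nonneg_left h5 (by positivity)
  have h7 : d * Real.sqrt d * (Real.sqrt d * ρ ^ 3) = d ^ 2 * ρ ^ 3 := by
    calc d * Real.sqrt d * (Real.sqrt d * ρ ^ 3) = d * (Real.sqrt d * Real.sqrt d) * ρ ^ 3 := by ring
      _ = _ := by rw [hss]; ring
  have h8 : ε * (256 * D) * d ^ 2 ≤ ρ ^ 3 * d ^ 2 := mul_le_mul_of_nonneg_right h4 (by positivity)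
  nlinarith

/-- lower bound for the drift -/
theorem STR_drift {c ρ ε d N S A : ℝ} (hρ : 0 < ρ) (hc : c ≤ 1) (hρc : ρ < c) (hε0 : 0 ≤ ε) (hε : ε ≤ ρ / 16)
    (hd : 0 < d) (hN : 0 < N) (hNd : N ≤ d) (hS : c - ρ / 4 ≤ Real.sqrt N * S) (hA : (1 - ε) * d ≤ A) :
    (c - ρ) * Real.sqrt d ≤ A * S := by
  have hsN : 0 < Real.sqrt N := Real.sqrt_pos.2 hN
  have hsd : 0 < Real.sqrt d := Real.sqrt_pos.2 hd
  have hle : Real.sqrt N ≤ Real.sqrt d := Real.sqrt_le_sqrt hNd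
  have hS0 : 0 < S := by
    by_contra hneg
    push Not at hneg
    have : Real.sqrt N * S ≤ 0 := mul_nonpos_of_nonneg_of_nonpos hsN.le hneg
    linarith
  have h1 : c - ρ / 4 ≤ Real.sqrt d * S := hS.trans (mul_le_mul_of_nonneg_right hle hS0.le)
  have hss : Real.sqrt d * Real.sqrt d = d := Real.mul_self_sqrt hd.le
  have h2 : (1 - ε) * (c - ρ / 4) ≤ (1 - ε) * (Real.sqrt d * S) :=
    mul_le_mul_of_nonneg_left h1 (by linarith)
  have h3 : c - ρ ≤ (1 - ε) * (c - ρ / 4) := by nlinarith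
  calc (c - ρ) * Real.sqrt d ≤ (1 - ε) * (Real.sqrt d * S) * Real.sqrt d :=
        mul_le_mul_of_nonneg_right (h3.trans h2) hsd.le
    _ = (1 - ε) * (Real.sqrt d * Real.sqrt d) * S := by ring
    _ = (1 - ε) * d * S := by rw [hss]
    _ ≤ A * S := mul_le_mul_of_nonneg_right hA hS0.le

theorem t_str (h2 : ST2) (h3 : ST3) (h4 : ST4) (h5 : ST5) (hw : WVA) (ha : ASY) (hn : GMN) (hg : GSC)
    (hu : GUP) (_he : GEV) : STR := by
  intro p ω ρ hp hp2 hω hρ hρc hρv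
  set c := ω * Real.exp (-(ω ^ 2 / 2)) with hc
  set E2 := Real.exp (-(2 * ω ^ 2)) with hE2
  set v := (1 + E2) / 2 with hv
  set D := Real.cosh (8 * ω ^ 2) with hD
  have hc1 : c ≤ 1 := STR_c_le ω
  have hv1 : v ≤ 1 := STR_v_le ω
  have hD1 : 1 ≤ D := Real.one_le_cosh _
  set h := GH p (c - ρ) (Real.sqrt (v - ρ)) with hh
  have hh2 : h ≤ 2 := by
    have h1 := (hu p hp hp2.le).1 (c - ρ) (Real.sqrt (v - ρ)) (Real.sqrt_nonneg _)
    have h2' : |c - ρ| ^ p ≤ 1 := Real.rpow_le_one (abs_nonneg _) (by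
      rw [abs_le]; constructor <;> linarith) (by linarith)
    have h3' : Real.sqrt (v - ρ) ^ p ≤ 1 := Real.rpow_le_one (Real.sqrt_nonneg _) (by
      exact Real.sqrt_le_iff.2 ⟨by norm_num, by linarith⟩) (by linarith)
    have h4' := (hu p hp hp2.le).2.1
    have h5' := (hu p hp hp2.le).2.2
    have h6' : Real.sqrt (v - ρ) ^ p * gam p ≤ 1 * 1 := mul_le_mul h3' h4' h5'.le (by norm_num)
    linarith
  set ε := min (ρ / 16) (ρ ^ 3 / (256 * D)) with hε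
  have hε0 : 0 < ε := lt_min (by positivity) (by positivity)
  have hε1 : ε ≤ ρ / 16 := min_le_left _ _
  have hε2 : ε ≤ ρ ^ 3 / (256 * D) := min_le_right _ _
  obtain ⟨d₁, hd₁⟩ := h2 p (ρ / 16) hp hp2 (by positivity)
  obtain ⟨N₀, hN₀⟩ := ha ω (ρ / 4) hω (by positivity)
  refine ⟨ε, hε0, max (max d₁ (2 * N₀ + 1)) (⌈(1280 * D / ρ ^ 3) ^ 2⌉₊ + 1), ?_⟩
  intro d hd T G hG hT hX
  have hdd₁ : d₁ ≤ d := (le_max_left _ _).trans ((le_max_left _ _).trans hd)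
  have hdN : 2 * N₀ + 1 ≤ d := (le_max_right _ _).trans ((le_max_left _ _).trans hd)
  have hdbig : ⌈(1280 * D / ρ ^ 3) ^ 2⌉₊ + 1 ≤ d := (le_max_right _ _).trans hd
  have hd1 : 1 ≤ d := by omega
  have hd0 : (0 : ℝ) < d := by exact_mod_cast hd1
  have hbig : 1280 * D / ρ ^ 3 ≤ Real.sqrt d := by
    refine Real.le_sqrt_of_sq_le ?_
    calc (1280 * D / ρ ^ 3) ^ 2 ≤ (⌈(1280 * D / ρ ^ 3) ^ 2⌉₊ : ℝ) := Nat.le_ceil _
      _ ≤ d := by exact_mod_cast (Nat.le_succ _).trans hdbig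
  -- trivial case
  by_cases hneg : h - ρ / 2 ≤ 0
  · refine ⟨∅, ?_⟩
    have h1 : 0 ≤ ∑ i ∈ G, |∑ j, T i j * sg ∅ j| ^ p :=
      Finset.sum_nonneg fun i _ => Real.rpow_nonneg (abs_nonneg _) _
    have h2' : (h - ρ / 2) * (d : ℝ) ^ (1 + p / 2) ≤ 0 :=
      mul_nonpos_of_nonpos_of_nonneg hneg (Real.rpow_nonneg hd0.le _)
    exact h2'.trans h1
  push Not at hneg
  have hNr : (G.card : ℝ) ≤ d := by
    have : G.card ≤ d := by simpa using Finset.card_le_univ G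
    exact_mod_cast this
  have hNhalf : (d : ℝ) / 2 ≤ G.card := by nlinarith
  have hNpos : (0 : ℝ) < G.card := by linarith
  have hNcard : 0 < G.card := by exact_mod_cast hNpos
  have hNN : N₀ ≤ G.card := by
    have h1 : ((2 * N₀ + 1 : ℕ) : ℝ) ≤ d := by exact_mod_cast hdN
    push_cast at h1
    have h2' : (N₀ : ℝ) ≤ G.card := by linarith
    exact_mod_cast h2'
  obtain ⟨_, hN4, hNS, hNC⟩ := hN₀ G.card hNN
  set S := Real.sin (ω / Real.sqrt G.card) * Real.cos (ω / Real.sqrt G.card) ^ (G.card - 1) with hS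
  set cN := Real.cos (2 * ω / Real.sqrt G.card) ^ G.card with hcN
  set V₀ := (v - ρ) * d with hV₀
  have hV₀0 : 0 ≤ V₀ := mul_nonneg (by linarith) hd0.le
  -- the fluctuation of W
  set M := 5 * (d : ℝ) ^ (3 / 2 : ℝ) + ε * (d : ℝ) ^ 2 with hM
  have hM' := h5 p ε d T G hp hp2.le hε0.le hd1 hT hX
  have hvar := hw (Fin d) (Fin d) G univ (fun i j => sn (T i j)) M ω (fun i j => STR_sn _)
    (fun x hx => hM' x hx) hNcard hω.le hN4
  rw [Finset.card_univ, Fintype.card_fin] at hvar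
  have hfl : 4 / (ρ ^ 2 * (d : ℝ) ^ 2) * EE G (fun _ => 0) (fun U => (STR_W T G ω U - d * cN) ^ 2) ≤ ρ / 16 :=
    STR_num hρ hD1 hd0 hNhalf hε0.le hε2 hbig hM hvar
  -- lower bound for each i
  have hpos : 0 ≤ (d : ℝ) ^ (p / 2) := Real.rpow_nonneg hd0.le _
  have hz : ∀ j ∈ G, |(fun _ => (0 : ℝ)) j| ≤ 1 := by intro j _; simp
  have key : ∀ i ∈ G, (d : ℝ) ^ (p / 2) * (h - ρ / 8) ≤
      EE G (fun _ => 0) (fun U => EE univ (STR_f T G ω U) (fun X => |∑ j, T i j * sg X j| ^ p)) := by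
    intro i hi
    have hpt : ∀ U ⊆ G, GH p (∑ j, T i j * STR_f T G ω U j) (Real.sqrt V₀) +
        (-(ρ / 16 * (d : ℝ) ^ (p / 2)) + (-((d : ℝ) ^ (p / 2) * (4 / (ρ ^ 2 * (d : ℝ) ^ 2)))) *
          (STR_W T G ω U - d * cN) ^ 2) ≤
        EE univ (STR_f T G ω U) (fun X => |∑ j, T i j * sg X j| ^ p) := by
      intro U _
      have h1 := hd₁ d hdd₁ (T i) (STR_f T G ω U) V₀ (STR_f_le T G ω U) hV₀0
      have h2' := STR_bad (p := p) hρ hd0 (by linarith) hv hρv hv1 hε1 hV₀ (STR_sum T G ω U) (hT i hi) hNC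
      linarith
    have hAB := EE_mono hz hpt
    rw [EE_add, EE_add, EE_const, EE_mul] at hAB
    have hJ := h3 p (Real.sqrt V₀) (Fin d) G i (fun U => ∑ j, T i j * STR_f T G ω U j) hp hp2.le
    have h4' := h4 d T G ω i hi
    have hA : (1 - ε) * d ≤ ∑ j, |T i j| := by
      have h1 : ∑ j : Fin d, (1 - |(|T i j| - 1)|) ≤ ∑ j, |T i j| := by
        refine Finset.sum_le_sum fun j _ => ?_
        have := neg_abs_le (|T i j| - 1)
        linarith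
      rw [Finset.sum_sub_distrib, Finset.sum_const, Finset.card_univ, Fintype.card_fin, nsmul_eq_mul,
        mul_one] at h1
      have := hT i hi
      linarith
    have hdr : (c - ρ) * Real.sqrt d ≤ (∑ j, |T i j|) * S :=
      STR_drift hρ hc1 hρc hε0.le hε1 hd0 hNpos hNr hNS hA
    have hEa : EE G (fun _ => 0) (fun U => sg U i * ∑ j, T i j * STR_f T G ω U j) = (∑ j, |T i j|) * S := h4'
    have hmon := hn p ((c - ρ) * Real.sqrt d) ((∑ j, |T i j|) * S) (Real.sqrt V₀) (Real.sqrt V₀) hp hp2.le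
      (mul_nonneg (by linarith) (Real.sqrt_nonneg _)) hdr (Real.sqrt_nonneg _) le_rfl
    have hsc : GH p ((c - ρ) * Real.sqrt d) (Real.sqrt V₀) = (d : ℝ) ^ (p / 2) * h := by
      have h1 : Real.sqrt V₀ = Real.sqrt d * Real.sqrt (v - ρ) := by
        rw [hV₀, mul_comm, Real.sqrt_mul hd0.le]
      rw [h1, mul_comm (c - ρ), hg p (c - ρ) (Real.sqrt (v - ρ)) (Real.sqrt d) (Real.sqrt_nonneg _), hh]
      congr 1
      rw [Real.sqrt_eq_rpow, ← Real.rpow_mul hd0.le]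
      congr 1
      ring
    rw [hEa] at hJ
    have h7 : (d : ℝ) ^ (p / 2) * (4 / (ρ ^ 2 * (d : ℝ) ^ 2) *
        EE G (fun _ => 0) (fun U => (STR_W T G ω U - d * cN) ^ 2)) ≤ (d : ℝ) ^ (p / 2) * (ρ / 16) :=
      mul_le_mul_of_nonneg_left hfl hpos
    rw [hsc] at hmon
    nlinarith
  -- sum over i
  have hsum : (h - ρ / 2) * (d : ℝ) ^ (1 + p / 2) ≤ EE G (fun _ => 0) (fun U =>
      EE univ (STR_f T G ω U) (fun X => ∑ i ∈ G, |∑ j, T i j * sg X j| ^ p)) := by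
    have h1 : ∑ i ∈ G, (d : ℝ) ^ (p / 2) * (h - ρ / 8) ≤ ∑ i ∈ G, EE G (fun _ => 0) (fun U =>
        EE univ (STR_f T G ω U) (fun X => |∑ j, T i j * sg X j| ^ p)) := Finset.sum_le_sum key
    rw [← EE_sum] at h1
    have h2' : EE G (fun _ => 0) (fun U => ∑ i ∈ G, EE univ (STR_f T G ω U) (fun X => |∑ j, T i j * sg X j| ^ p)) =
        EE G (fun _ => 0) (fun U => EE univ (STR_f T G ω U) (fun X => ∑ i ∈ G, |∑ j, T i j * sg X j| ^ p)) :=
      EE_congr fun U _ => (EE_sum _ _ _ _).symm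
    rw [h2', Finset.sum_const, nsmul_eq_mul] at h1
    refine le_trans ?_ h1
    have h3' : (d : ℝ) ^ (1 + p / 2) = d * (d : ℝ) ^ (p / 2) := by
      rw [Real.rpow_add hd0, Real.rpow_one]
    rw [h3']
    have h4' : 0 ≤ h - ρ / 8 := by linarith
    have h5' : (1 - ε) * d * ((d : ℝ) ^ (p / 2) * (h - ρ / 8)) ≤ G.card * ((d : ℝ) ^ (p / 2) * (h - ρ / 8)) :=
      mul_le_mul_of_nonneg_right hG (mul_nonneg hpos h4')
    refine le_trans ?_ h5'
    have h6' : (h - ρ / 2) ≤ (1 - ε) * (h - ρ / 8) := by nlinarith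
    have h7' : 0 ≤ (d : ℝ) * (d : ℝ) ^ (p / 2) := mul_nonneg hd0.le hpos
    calc (h - ρ / 2) * ((d : ℝ) * (d : ℝ) ^ (p / 2)) ≤ (1 - ε) * (h - ρ / 8) * ((d : ℝ) * (d : ℝ) ^ (p / 2)) :=
          mul_le_mul_of_nonneg_right h6' h7'
      _ = _ := by ring
  obtain ⟨U, _, hU⟩ := EE_exists hz (fun U =>
      EE univ (STR_f T G ω U) (fun X => ∑ i ∈ G, |∑ j, T i j * sg X j| ^ p))
  obtain ⟨X, _, hX'⟩ := EE_exists (s := univ) (f := STR_f T G ω U) (fun j _ => STR_f_le T G ω U j)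
    (fun X => ∑ i ∈ G, |∑ j, T i j * sg X j| ^ p)
  exact ⟨X, hsum.trans (hU.trans hX')⟩

end Pool.Agent.helper43.KG
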