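import Pool.Agent.helper43.KG.Defs
import Pool.Agent.helper75.BM.Lower

set_option autoImplicit false

/-!
# Project KG (MP_cef0b4_gt, Khinchine gap): the rows

Row `XX` proves `theorem t_xx (h1 : AA) ... : XX` in the file `Pool/Agent/<seat>/KG/XX.lean`, which imports this file, namespace
`Pool.Agent.helper43.KG`, auxiliary lemmas prefixed `XX_`. Other rows enter only as hypotheses (exact theorem line at the row).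
No `sorry`, no double quotes, no `convert` / `congr!`, no `native_decide`.

Conventions. `sg U j` is the sign (`1` if `j ∈ U`, else `-1`), `EE s f F` the expectation of `F U` over independent random signs with means `f j`
(`Defs.lean`: EE_const, EE_add, EE_sub, EE_mul, EE_sum, EE_congr, EE_mono, EE_exists, EE_insert, EE_empty, EE_jensen, EE_sg, sg_abs, sg_sq,
sg_insert_self, sg_insert_ne, sg_notMem are proved). `g` is a standard normal variable, `GH p a s = E|a + s g|^p`, `gam p = E|g|^p`.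
-/

namespace Pool.Agent.helper43.KG

open Finset MeasureTheory ProbabilityTheory
open scoped ENNReal

/-! ## Part A: random signs -/

/-- MON (short-medium). `theorem t_mon : MON`. Proof. Induction on `s`, generalizing `a`. For `insert j s`: `EE_insert`, and for `U ⊆ s` the sum over
`insert j s` at `insert j U` is `w_j (1 - f_j) + ∑_{i ∈ s}`, at `U` it is `- w_j (1 + f_j) + ∑_{i ∈ s}` (`w = c t` on the left, `w = t` on the right).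
By the induction hypothesis (with `a` shifted) the left side is at most
`EE s f (fun U => (1 + f)/2 ϕ (A + c t (1 - f)) + (1 - f)/2 ϕ (A - c t (1 + f)))`, `A = a + ∑_{i ∈ s} t_i (sg U i - f_i)`, `f = f_j`, `c = c_j`, `t = t_j`.
One variable: `A + c t (1 - f) = (1 - c) A + c (A + t (1 - f))`, so by convexity the bracket is at most
`(1 - c) ϕ A + c R` with `R = (1 + f)/2 ϕ (A + t (1 - f)) + (1 - f)/2 ϕ (A - t (1 + f))`, and `ϕ A ≤ R` by convexity (the mean of the two points is `A`). -/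
def MON : Prop := ∀ (ι : Type) [DecidableEq ι] (s : Finset ι) (f t c : ι → ℝ) (ϕ : ℝ → ℝ),
  ConvexOn ℝ Set.univ ϕ → (∀ j ∈ s, |f j| ≤ 1) → (∀ j ∈ s, 0 ≤ c j ∧ c j ≤ 1) → ∀ a : ℝ,
    EE s f (fun U => ϕ (a + ∑ j ∈ s, c j * t j * (sg U j - f j))) ≤
      EE s f (fun U => ϕ (a + ∑ j ∈ s, t j * (sg U j - f j)))

/-- TRI (short). `theorem t_tri : TRI`. Proof. Induction on `s`, generalizing `a`, both parts together: `EE_insert` gives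
`½ (… (a + θ_j)) + ½ (… (a - θ_j))`; `cos (a + θ) + cos (a - θ) = 2 cos a cos θ`, `sin (a + θ) + sin (a - θ) = 2 sin a cos θ`. -/
def TRI : Prop := ∀ (ι : Type) [DecidableEq ι] (s : Finset ι) (θ : ι → ℝ) (a : ℝ),
  EE s (fun _ => 0) (fun U => Real.cos (a + ∑ j ∈ s, θ j * sg U j)) = Real.cos a * ∏ j ∈ s, Real.cos (θ j) ∧
  EE s (fun _ => 0) (fun U => Real.sin (a + ∑ j ∈ s, θ j * sg U j)) = Real.sin a * ∏ j ∈ s, Real.cos (θ j)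

/-- TRS (short). `theorem t_trs (h : TRI) : TRS`. Proof. `s = insert i t`, `t = s.erase i`; `EE_insert` gives
`½ EE t (sin (θ_i + ∑_t)) - ½ EE t (sin (-θ_i + ∑_t))`, TRI for `t`: `½ sin θ_i ∏ - ½ sin (-θ_i) ∏`. -/
def TRS : Prop := ∀ (ι : Type) [DecidableEq ι] (s : Finset ι) (θ : ι → ℝ) (i : ι), i ∈ s →
  EE s (fun _ => 0) (fun U => sg U i * Real.sin (∑ j ∈ s, θ j * sg U j)) =
    Real.sin (θ i) * ∏ j ∈ s.erase i, Real.cos (θ j)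

/-- KHI (medium). `theorem t_khi : KHI`. Proof. `X = ∑ t_j sg_j`, `v = ∑ t_j²`. `EE X² = v`, `EE X⁴ ≤ 3 v²` (induction on `s`, with `EE X = 0`, `EE X³ = 0`
or with the shifted moments: `EE (a + X)² = a² + v`, `EE (a + X)⁴ ≤ a⁴ + 6 a² v + 3 v²` for all `a`; step: `½((b + t)⁴ + (b - t)⁴) = b⁴ + 6 b² t² + t⁴`).
If `v = 0` the left side is `0`. Otherwise let `l = √v`; for every real `x`: `|x| ≥ (√3/2) x²/l - (√3/18) x⁴/l³` (divide by `|x|`: the function `y ↦ (√3/2) y - (√3/18) y³`,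
`y = |x|/l ≥ 0`, has maximum `1` at `y = √3`: `1 - (√3/2) y + (√3/18) y³ = (√3/18) (y - √3)² (y + 2√3)`). So `EE |X| ≥ (√3/2) l - (√3/18)·3 l = l/√3`.
Finally `EE |X|^p ≥ (EE |X|)^p` for `p ≥ 1` (Jensen, `EE_jensen` with the convex function `x ↦ |x|^p` applied to `|X|`, or `convexOn_rpow`), and
`(l/√3)^p = (v/3)^(p/2)`. -/
def KHI : Prop := ∀ (ι : Type) [DecidableEq ι] (s : Finset ι) (t : ι → ℝ) (p : ℝ), 1 ≤ p →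
  ((∑ j ∈ s, t j ^ 2) / 3) ^ (p / 2) ≤ EE s (fun _ => 0) (fun U => |∑ j ∈ s, t j * sg U j| ^ p)

/-! ## Part B: Gaussian integrals -/

/-- GIC (short). `theorem t_gic : GIC`. Proof. The function is bounded by `C (1 + (a + s x)²) ≤ C (1 + 2a² + 2 s² x²)`, `x²` is integrable
(`memLp_id_gaussianReal 2` or similar), `Integrable.mono'`, measurable by continuity. -/
def GIC : Prop := ∀ (ϕ : ℝ → ℝ) (C a s : ℝ), Continuous ϕ → (∀ x, |ϕ x| ≤ C * (1 + x ^ 2)) →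
  Integrable (fun x => ϕ (a + s * x)) (gaussianReal 0 1)

/-- GEV (short-medium). `theorem t_gev (h : GIC) : GEV`. Proof. `|x|^p` is convex for `p ≥ 1` and `|x|^p ≤ 1 + x²` for `0 ≤ p ≤ 2` (so integrable by GIC). Convexity:
integrate the pointwise inequality. Even: the standard normal law is symmetric (`gaussianReal_map_neg`, `integral_map`) and `|-a + s x| = |a + s (-x)|`.
Lower bound: Jensen, or integrate `|a + s x|^p + |a - s x|^p ≥ 2|a|^p` and use symmetry. -/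
def GEV : Prop := ∀ (p s : ℝ), 1 ≤ p → p ≤ 2 → ConvexOn ℝ Set.univ (fun a => GH p a s) ∧
  (∀ a, GH p (-a) s = GH p a s) ∧ ∀ a, |a| ^ p ≤ GH p a s

/-- GMN (short-medium). `theorem t_gmn (h : GIC) (he : GEV) : GMN`. Proof. In `a`: an even convex function is nondecreasing on `[0, ∞)`. In `s`: by symmetry
`GH p a s = ½ ∫ (|a + s x|^p + |a - s x|^p)`, and `s ↦ |a + s x|^p + |a - s x|^p` is even and convex, so nondecreasing for `s ≥ 0`. -/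
def GMN : Prop := ∀ (p a b s t : ℝ), 1 ≤ p → p ≤ 2 → 0 ≤ a → a ≤ b → 0 ≤ s → s ≤ t → GH p a s ≤ GH p b t

/-- GUP (short-medium). `theorem t_gup (h : GIC) : GUP`. Proof. `½(|a+b|^p + |a-b|^p) ≤ (½(|a+b|² + |a-b|²))^(p/2) = (a² + b²)^(p/2) ≤ |a|^p + |b|^p`
(concavity of `x^(p/2)`, `Real.add_rpow_le_rpow_add` or `rpow_add_le_add_rpow` type lemma); integrate with `b = s x` and use symmetry of the normal law.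
`gam p ≤ 1`: `|x|^p ≤ 1 + (p/2)(x² - 1)` (concavity of `y^(p/2)` at `1`; Bernoulli `Real.rpow_one_add_le_one_add_mul_self`), `E g² = 1`.
`0 < gam p`: the integral of a nonnegative function positive off `0`. -/
def GUP : Prop := ∀ (p : ℝ), 1 ≤ p → p ≤ 2 →
  (∀ a s : ℝ, 0 ≤ s → GH p a s ≤ |a| ^ p + s ^ p * gam p) ∧ gam p ≤ 1 ∧ 0 < gam p

/-- GSC (short). `theorem t_gsc : GSC`. Proof. `|c a + c s x|^p = c^p |a + s x|^p` (`Real.mul_rpow`). -/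
def GSC : Prop := ∀ (p a s c : ℝ), 0 ≤ c → GH p (c * a) (c * s) = c ^ p * GH p a s

/-- MOM (medium). `theorem t_mom : MOM`. Proof. `integral_gaussianReal_eq_integral_smul`, evenness, and Mathlib's
`∫ x in Ioi 0, x^q exp(-b x^2)` (`integral_rpow_mul_exp_neg_mul_sq` / `integral_rpow_mul_exp_neg_mul_rpow`): `E|g|^q = 2^(q/2) Γ((q+1)/2)/√π` for all `q > -1`.
Then `Γ(x+1) = x Γ(x)` gives the ratios: `E|g|^(q+2) = (q+1) E|g|^q`. -/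
def MOM : Prop := ∀ (p : ℝ), 0 ≤ p →
  gam p = 2 ^ (p / 2) * Real.Gamma ((p + 1) / 2) / Real.sqrt Real.pi ∧
  Integrable (fun x => |x| ^ (p + 4)) (gaussianReal 0 1) ∧ Integrable (fun x => |x| ^ (p + 2)) (gaussianReal 0 1) ∧
  Integrable (fun x => |x| ^ p) (gaussianReal 0 1) ∧
  ∫ x, |x| ^ (p + 2) ∂(gaussianReal 0 1) = (p + 1) * gam p ∧
  ∫ x, |x| ^ (p + 4) ∂(gaussianReal 0 1) = (p + 1) * (p + 3) * gam p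

/-- SHI (medium). `theorem t_shi (h : GIC) (hm : MOM) : SHI`. Proof. With the density, substitution `s = x + m` and evenness:
`GH p m 1 = ∫ |s|^p φ(s - m) ds = e^(-m²/2) ∫ |s|^p e^(m s) φ(s) ds = e^(-m²/2) ∫ |s|^p cosh(m s) φ(s) ds` (`φ` the standard normal density), and
`cosh y ≥ 1 + y²/2 + y⁴/24`. (Mathlib: `gaussianReal_map_add_const`, or work with `gaussianPDFReal` and `integral_add_right_eq_self`.) The function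
`|s|^p e^(m s)` is integrable because it is `e^(m²/2)` times a translate of an integrable function; or bound `|x + m|^p` by `1 + (x+m)²` and use GIC. -/
def SHI : Prop := ∀ (p m : ℝ), 1 ≤ p → p ≤ 2 →
  Real.exp (-(m ^ 2 / 2)) * gam p * (1 + (p + 1) * m ^ 2 / 2 + (p + 1) * (p + 3) * m ^ 4 / 24) ≤ GH p m 1

/-- CNV (short-medium). `theorem t_cnv (h : GIC) : CNV`. Proof. `gaussianReal_conv_gaussianReal` (sum of independent normals), `gaussianReal_map_const_mul`. E.g. the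
double integral is the integral of `ϕ (a + z)` against the law of `σ x + τ y`, which is `gaussianReal 0 (σ² + τ²)`, the law of `√(σ²+τ²) x`. -/
def CNV : Prop := ∀ (ϕ : ℝ → ℝ) (C a σ τ : ℝ), Continuous ϕ → (∀ x, |ϕ x| ≤ C * (1 + x ^ 2)) →
  ∫ x, (∫ y, ϕ (a + σ * x + τ * y) ∂(gaussianReal 0 1)) ∂(gaussianReal 0 1) =
    ∫ x, ϕ (a + Real.sqrt (σ ^ 2 + τ ^ 2) * x) ∂(gaussianReal 0 1)

/-! ## Part C: Lindeberg -/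

/-- smooth functions: continuous, quadratic growth, third order Taylor bound with constant `L` -/
def Smo (L : ℝ) (ϕ : ℝ → ℝ) : Prop := Continuous ϕ ∧ (∃ C : ℝ, ∀ x, |ϕ x| ≤ C * (1 + x ^ 2)) ∧
  ∀ x : ℝ, ∃ A B : ℝ, ∀ h : ℝ, |ϕ (x + h) - ϕ x - A * h - B * h ^ 2| ≤ L * |h| ^ 3

/-- TAY (medium). `theorem t_tay : TAY`. Proof. `ϕ = (κ² + x²)^(p/2)`, `ϕ' = p x (κ²+x²)^(p/2-1)`, `ϕ'' = p (κ²+x²)^(p/2-1) + p(p-2) x² (κ²+x²)^(p/2-2)`,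
`ϕ''' = p(p-2) x (κ²+x²)^(p/2-2) (3 + (p-4) x²/(κ²+x²))`, and `|3 + (p-4) y| ≤ 3` for `0 ≤ y ≤ 1`, `p(2-p) ≤ 1`, `|x| ≤ (κ²+x²)^(1/2)`, so
`|ϕ'''| ≤ 3 (κ²+x²)^((p-3)/2) ≤ 3 κ^(p-3)`. Taylor with `A = ϕ'(x)`, `B = ϕ''(x)/2`: remainder at most `3 κ^(p-3) |h|³/6` (e.g. three times the mean value
inequality, or `taylor_mean_remainder_lagrange` for `h > 0` and the reflected function for `h < 0`; it is enough to get the constant `1` instead of `1/2`).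
Growth: `(κ²+x²)^(p/2) ≤ 1 + κ² + x²`. -/
def TAY : Prop := ∀ (p κ : ℝ), 1 ≤ p → p ≤ 2 → 0 < κ → Smo (κ ^ (p - 3)) (fun x => (κ ^ 2 + x ^ 2) ^ (p / 2))

/-- ONE (medium). `theorem t_one (h : GIC) : ONE`. Proof. Taylor at `a`: `ϕ(a+h) = ϕ(a) + A h + B h² + R(h)`, `|R| ≤ L|h|³`. For `h = w(1-f)` with weight `(1+f)/2` and
`h = -w(1+f)` with weight `(1-f)/2`: mean `0`, second moment `w²(1-f²)`, third absolute moment `|w|³(1-f²)(1+f²) ≤ |w|³`. For `h = |w| √(1-f²) x`, `x` normal: mean `0`,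
second moment `w²(1-f²)`, third absolute moment at most `2|w|³` (`|x|³ ≤ (x²+x⁴)/2`, `E x² = 1`, `E x⁴ = 3`). The terms `ϕ(a) + B w²(1-f²)` cancel.
(`L ≥ 0` follows from the hypothesis.) -/
def ONE : Prop := ∀ (L : ℝ) (ϕ : ℝ → ℝ) (a w f : ℝ), Smo L ϕ → |f| ≤ 1 →
  |(1 + f) / 2 * ϕ (a + w * (1 - f)) + (1 - f) / 2 * ϕ (a - w * (1 + f)) -
    ∫ x, ϕ (a + |w| * Real.sqrt (1 - f ^ 2) * x) ∂(gaussianReal 0 1)| ≤ 3 * L * |w| ^ 3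

/-- LIN (medium). `theorem t_lin (h : GIC) (h1 : ONE) (hc : CNV) : LIN`. Proof. Induction on `s`, generalizing `ϕ` and `a`. For `insert j s` let
`ψ x = (1+f_j)/2 ϕ(x + w_j(1-f_j)) + (1-f_j)/2 ϕ(x - w_j(1+f_j))`; `Smo L ψ` (convex combination of translates) and by `EE_insert` the expectation is
`EE s f (fun U => ψ (a + ∑_{i ∈ s} w_i (sg U i - f_i)))`. Induction hypothesis for `ψ`; then with `σ = √(∑_s w²(1-f²))`, `τ = |w_j|√(1-f_j²)`: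
`|∫ ψ(a + σ x) - ∫ (∫ ϕ(a + σ x + τ y) dy) dx| ≤ 3 L |w_j|³` by ONE (pointwise in `x`), and CNV. -/
def LIN : Prop := ∀ (L : ℝ) (ι : Type) [DecidableEq ι] (s : Finset ι) (f w : ι → ℝ) (ϕ : ℝ → ℝ) (a : ℝ),
  Smo L ϕ → (∀ j ∈ s, |f j| ≤ 1) →
  |EE s f (fun U => ϕ (a + ∑ j ∈ s, w j * (sg U j - f j))) -
    ∫ x, ϕ (a + Real.sqrt (∑ j ∈ s, w j ^ 2 * (1 - f j ^ 2)) * x) ∂(gaussianReal 0 1)| ≤ 3 * L * ∑ j ∈ s, |w j| ^ 3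

/-- CLT (medium). `theorem t_clt (h : GIC) (ht : TAY) (hl : LIN) : CLT`. Proof. `κ₁ = (ε/2)^(1/p)`, `κ = κ₁ √d`, `ϕ = (κ² + x²)^(p/2)`. Pointwise
`|x|^p ≤ ϕ(x) ≤ |x|^p + κ^p` (subadditivity of `y^(p/2)`, `(x²)^(p/2) = |x|^p`). LIN (with TAY):
`EE |…|^p ≥ EE ϕ(…) - κ^p ≥ ∫ ϕ(a + σ x) - κ^p - 3 κ^(p-3) d K³ ≥ GH p a σ - κ^p - 3 κ^(p-3) d K³`, and `κ^p = (ε/2) d^(p/2)`,
`κ^(p-3) d K³ = κ₁^(p-3) K³ d^(p/2) d^(-1/2) ≤ (ε/6) d^(p/2)` for `d ≥ d₀` (`√d ≥ 6 κ₁^(p-3) K³/ε`, `d ≥ 1`). -/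
def CLT : Prop := ∀ (p ε K : ℝ), 1 ≤ p → p < 2 → 0 < ε → 1 ≤ K → ∃ d₀ : ℕ, ∀ d : ℕ, d₀ ≤ d →
  ∀ (ι : Type) [DecidableEq ι] (s : Finset ι) (f w : ι → ℝ) (a : ℝ), s.card ≤ d →
  (∀ j ∈ s, |f j| ≤ 1) → (∀ j ∈ s, |w j| ≤ K) →
  GH p a (Real.sqrt (∑ j ∈ s, w j ^ 2 * (1 - f j ^ 2))) - ε * (d : ℝ) ^ (p / 2) ≤
    EE s f (fun U => |a + ∑ j ∈ s, w j * (sg U j - f j)| ^ p)

/-! ## Part D: rows -/

/-- SLK (medium). `theorem t_slk (hm : MON) (hk : KHI) : SLK`. Proof. `J = {j : K < |t j|}`, `S = ∑_J t_j²`. Hoelder (or power mean): `∑_J |t|^r ≤ S^(r/2) |J|^(1-r/2)`,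
and `|J| K^r ≤ ∑_J |t|^r ≤ d`. So `e d ≤ S^(r/2) (d/K^r)^(1-r/2)`, i.e. `S ≥ e^(2/r) K^(2-r) d ≥ 9 d`. MON with `c` the indicator of `J`, `f = 0`, `a = 0`, `ϕ = |·|^p` (convex), and
KHI for the vector `c t`: `EE ≥ (S/3)^(p/2) ≥ (3 d)^(p/2)`. (`d = 0`: both sides are `0`, or nonnegativity of the right side.) -/
def SLK : Prop := ∀ (p r e K : ℝ) (d : ℕ) (t : Fin d → ℝ), 1 ≤ p → 1 ≤ r → r < 2 → 0 < K → 0 < e →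
  3 ≤ e ^ (1 / r) * K ^ (1 - r / 2) → ∑ j, |t j| ^ r ≤ d →
  e * d ≤ ∑ j ∈ univ.filter (fun j => K < |t j|), |t j| ^ r →
  (3 * (d : ℝ)) ^ (p / 2) ≤ EE univ (fun _ => 0) (fun U => |∑ j, t j * sg U j| ^ p)

/-- ROA (short-medium). `theorem t_roa : ROA`. Proof. `u^r ≤ (2-r) u + (r-1) u²` for `u ≥ 0` (weighted AM-GM, `Real.geom_mean_le_arith_mean2_weighted`; for `u = 0` trivial since
`r ≥ 1`). So `∑ u ≥ ((1-δ) - (r-1)(1+δ)) d/(2-r) = (1 - rδ/(2-r)) d`, `∑ (u-1)² ≤ (1+δ) d - 2(1 - rδ/(2-r)) d + d = (δ + 2rδ/(2-r)) d ≤ ε² d` for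
`δ = ε² (2-r)/6`, and Cauchy-Schwarz: `∑ |u-1| ≤ √d √(∑ (u-1)²) ≤ ε d`. -/
def ROA : Prop := ∀ (r ε : ℝ), 1 ≤ r → r < 2 → 0 < ε → ∃ δ : ℝ, 0 < δ ∧ ∀ (d : ℕ) (u : Fin d → ℝ), (∀ j, 0 ≤ u j) →
  (1 - δ) * d ≤ ∑ j, u j ^ r → ∑ j, u j ^ 2 ≤ (1 + δ) * d → ∑ j, |u j - 1| ≤ ε * d

/-- ROW (medium-long). `theorem t_row (hm : MON) (hc : CLT) (hs : SLK) (ha : ROA) (hu : GUP) (hg : GSC) : ROW`. Proof. Let `δ' ≤ ε/4`, `δ' ≤ 1/4` be below the `δ` of ROA for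
`(r, ε/2)`; `e = δ'`, `K ≥ 1` with `3 ≤ e^(1/r) K^(1-r/2)` (exists since `1 - r/2 > 0`); `u_j = min |t_j| K`. CLT with `ε' > 0` small, `f = 0`, `a = 0`, weights
`c_j t_j` where `c_j = min 1 (K/|t_j|)` (`|c_j t_j| = u_j ≤ K`; `c_j = 1` if `t_j = 0`) and MON: `EE |∑ t sg|^p ≥ GH p 0 (√∑u²) - ε' d^(p/2) = (∑ u²)^(p/2) gam p - ε' d^(p/2)`
(GSC). Case 1: `e d ≤ ∑_{K < |t|} |t|^r`: SLK: `EE ≥ (3d)^(p/2) ≥ √3 d^(p/2) > (gam + δ) d^(p/2)` if `δ ≤ 1/2` (`gam ≤ 1`; `d ≥ 1`), so (i) holds and (ii) is void.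
Case 2: `∑ u^r ≥ ∑_{|t| ≤ K} |t|^r ≥ (1-e) d`. (i): power mean `∑ u² ≥ (1-e)^(2/r) d ≥ (1-e)² d`, so `EE ≥ gam (1-e)^p d^(p/2) - ε' d^(p/2) ≥ (gam - 2e - ε') d^(p/2)`
(`(1-e)^p ≥ (1-e)² ≥ 1 - 2e`, `gam ≤ 1`), `2e + ε' ≤ ε` with `ε' ≤ ε/4`. (ii): `gam (∑u²)^(p/2) ≤ (gam + δ + ε') d^(p/2)`, so `∑ u² ≤ (1 + (δ+ε')/gam)^(2/p) d ≤ (1 + (δ+ε')/gam)² d ≤ (1+δ') d`
if `(δ + ε')/gam ≤ δ'/3`. ROA: `∑|u-1| ≤ (ε/2) d`; and `∑ ||t|-1| ≤ ∑|u-1| + ∑_{K<|t|} |t| ≤ (ε/2) d + ∑_{K < |t|} |t|^r ≤ (ε/2 + e) d ≤ ε d` (`|t| ≤ |t|^r` for `|t| ≥ 1`;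
for `|t| > K ≥ 1`: `||t|-1| ≤ |t|`). -/
def ROW : Prop := ∀ (p r ε : ℝ), 1 ≤ p → p < 2 → 1 ≤ r → r < 2 → 0 < ε → ∃ δ : ℝ, 0 < δ ∧ ∃ d₀ : ℕ, ∀ d : ℕ, d₀ ≤ d →
  ∀ t : Fin d → ℝ, ∑ j, |t j| ^ r = d →
  (gam p - ε) * (d : ℝ) ^ (p / 2) ≤ EE univ (fun _ => 0) (fun U => |∑ j, t j * sg U j| ^ p) ∧
  (EE univ (fun _ => 0) (fun U => |∑ j, t j * sg U j| ^ p) ≤ (gam p + δ) * (d : ℝ) ^ (p / 2) →
    ∑ j, |(|t j| - 1)| ≤ ε * d)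

/-! ## Part E: the structure of the strategy -/

/-- COV (medium). `theorem t_cov (h : TRI) : COV`. Proof. `N = s.card`, `x = 2ω/√N`. `cos A cos B = ½ cos(A+B) + ½ cos(A-B)`; `A + B = ∑ x (a_i + b_i) sg`, so by TRI
`EE cos(A+B) = ∏ cos(x(a_i+b_i)) = c^n`, `c = cos(2x)`, `n = #{a_i = b_i}` (`a_i + b_i ∈ {0, ±2}`), `EE cos(A-B) = c^(N-n)`. `0 < c ≤ 1` (`2x ≤ 1`, because `4ω ≤ √N`; `c ≥ 1 - (2x)²/2 ≥ 1/2`).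
`c = 2 cos²x - 1 ≤ cos⁴x` (`(1 - cos²x)² ≥ 0`). With `c = e^(-L)`, `n = N(1+ρ)/2` (`ρ = (∑ a_i b_i)/N`, `∑ a_i b_i = n - (N-n)`):
`½(c^n + c^(N-n)) = e^(-LN/2) cosh(LNρ/2)`, `e^(-LN/2) = √(c^N) ≤ (cos x)^(2N) ≤ 1`. So the left side of COV is at most `cosh(LNρ/2) - 1`. `L = -log c ≤ (2x)² = 16ω²/N`
(`c ≥ 1 - y/2 ≥ e^(-y)` for `y = (2x)² ∈ [0,1]`), so `LN/2 ≤ 8ω²`. Finally `cosh(ρ z) - 1 ≤ ρ² (cosh z - 1)` for `|ρ| ≤ 1` (`cosh y - 1 = 2 sinh²(y/2)`, and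
`sinh(ρ y) ≤ ρ sinh y` for `0 ≤ ρ ≤ 1`, `y ≥ 0`, by convexity of `sinh` on `[0,∞)`), and `cosh` is monotone. -/
def COV : Prop := ∀ (ι : Type) [DecidableEq ι] (s : Finset ι) (a b : ι → ℝ) (ω : ℝ),
  (∀ i, a i = 1 ∨ a i = -1) → (∀ i, b i = 1 ∨ b i = -1) → 0 < s.card → 0 ≤ ω → 4 * ω ≤ Real.sqrt s.card →
  EE s (fun _ => 0) (fun U => Real.cos (2 * ω / Real.sqrt s.card * ∑ i ∈ s, a i * sg U i) *
      Real.cos (2 * ω / Real.sqrt s.card * ∑ i ∈ s, b i * sg U i)) -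
    (Real.cos (2 * ω / Real.sqrt s.card) ^ s.card) ^ 2 ≤
  ((∑ i ∈ s, a i * b i) / s.card) ^ 2 * (Real.cosh (8 * ω ^ 2) - 1)

/-- RHO (short). `theorem t_rho : RHO`. Proof. `∑_{j,k} (∑_i s_ij s_ik)² = ∑_{i'} ∑_k s_{i'k} ∑_i s_ik (∑_j s_ij s_{i'j}) ≤ ∑_{i'} ∑_k ∑_i |∑_j s_ij s_{i'j}| ≤ |G| |J| M`
(the hypothesis for `x_j = s_{i'j}`). -/
def RHO : Prop := ∀ (ι κ : Type) (G : Finset ι) (J : Finset κ) (s : ι → κ → ℝ) (M : ℝ),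
  (∀ i j, s i j = 1 ∨ s i j = -1) →
  (∀ x : κ → ℝ, (∀ j, x j = 1 ∨ x j = -1) → ∑ i ∈ G, |∑ j ∈ J, s i j * x j| ≤ M) →
  ∑ j ∈ J, ∑ k ∈ J, (∑ i ∈ G, s i j * s i k) ^ 2 ≤ G.card * J.card * M

/-- WVA (medium). `theorem t_wva (ht : TRI) (hc : COV) (hr : RHO) : WVA`. Proof. `m = cos(2ω/√N)^N`, `N = G.card`; `EE cos(2ω/√N ∑_i s_ij sg) = m` for each `j` (TRI, `cos` even).
`EE (W - |J| m)² = ∑_{j,k} EE (cos_j - m)(cos_k - m) = ∑_{j,k} (EE cos_j cos_k - m²) ≤ (cosh(8ω²)-1) ∑_{j,k} ρ_jk²` (COV), `ρ_jk = (∑_i s_ij s_ik)/N`,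
and RHO: `∑ ρ² ≤ N |J| M/N²`. -/
def WVA : Prop := ∀ (ι κ : Type) [DecidableEq ι] (G : Finset ι) (J : Finset κ) (s : ι → κ → ℝ) (M ω : ℝ),
  (∀ i j, s i j = 1 ∨ s i j = -1) →
  (∀ x : κ → ℝ, (∀ j, x j = 1 ∨ x j = -1) → ∑ i ∈ G, |∑ j ∈ J, s i j * x j| ≤ M) →
  0 < G.card → 0 ≤ ω → 4 * ω ≤ Real.sqrt G.card →
  EE G (fun _ => 0) (fun U => (∑ j ∈ J, Real.cos (2 * ω / Real.sqrt G.card * ∑ i ∈ G, s i j * sg U i) -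
      J.card * Real.cos (2 * ω / Real.sqrt G.card) ^ G.card) ^ 2) ≤
    (Real.cosh (8 * ω ^ 2) - 1) * (J.card * M / G.card)

/-- ASY (medium). `theorem t_asy : ASY`. Proof. `(1 + x/N)^N → e^x` (`Real.tendsto_one_add_div_pow_exp`), `cos θ ≥ 1 - θ²/2` (`Real.one_sub_sq_div_two_le_cos`), `θ - θ³/4 ≤ sin θ`
for `0 < θ ≤ 1` (`Real.sin_gt_sub_cube`). With `θ = ω/√N`: `cos(θ)^(N-1) ≥ cos(θ)^N ≥ (1 - ω²/(2N))^N → e^(-ω²/2)` (bases in `(0,1]` for large `N`), `√N sin θ ≥ ω - ω³/(4N) → ω`.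
Same for `cos(2ω/√N)^N ≥ (1 - 2ω²/N)^N → e^(-2ω²)`. -/
def ASY : Prop := ∀ (ω ρ : ℝ), 0 < ω → 0 < ρ → ∃ N₀ : ℕ, ∀ N : ℕ, N₀ ≤ N → 1 ≤ N ∧ 4 * ω ≤ Real.sqrt N ∧
  ω * Real.exp (-(ω ^ 2 / 2)) - ρ ≤ Real.sqrt N * (Real.sin (ω / Real.sqrt N) * Real.cos (ω / Real.sqrt N) ^ (N - 1)) ∧
  Real.exp (-(2 * ω ^ 2)) - ρ ≤ Real.cos (2 * ω / Real.sqrt N) ^ N

/-- NU0 (medium). `theorem t_nu0 : NU0`. Proof. `a = p/2 ∈ [1/2, 1)`, `z = a(1-a)/12 ≤ 1/48`, `y = z/cosh z`. For `t ≥ 0`: `1 + t ≥ exp(t - t²/2)` (`Real.log_le…`: derivative, or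
a Mathlib lemma). `cosh z ≥ 1 + z²/2 ≥ exp(z²/2 - z⁴/8)`, so `(cosh z)^a ≥ exp(a(z²/2 - z⁴/8))`; `q = (2a+1)y/2 + (2a+1)(2a+3)y²/24`, `1 + q ≥ exp(q - q²/2)`. So the product is at least
`exp E`, `E = q - q²/2 - a z - y/2 + a(z²/2 - z⁴/8)`. `z(1 - z²/2) ≤ y ≤ z`, so `q - y/2 - a z = -a(z-y) + (2a+1)(2a+3)y²/24 ≥ -z³/2 + (2a+1)(2a+3)y²/24`;
`q = (2a+1)(y/2)(1 + (2a+3)y/12)`, `(1 + 5y/12)² ≤ 1 + y`, so `q²/2 ≤ (2a+1)² y²(1+y)/8`. Hence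
`E ≥ a z²/2 + y²(2a+1)((2a+3) - 3(2a+1))/24 - (9/8) z³ - z³/2 - z⁴/8 ≥ z² (a/2 - a(2a+1)/6) - (7/4) z³ = z² (a(1-a)/3 - (7/4) z) > 0`. -/
def NU0 : Prop := ∀ p : ℝ, 1 ≤ p → p < 2 → ∃ z y : ℝ, 0 < z ∧ y = z / Real.cosh z ∧
  1 < Real.exp (-(p / 2 * z)) * Real.cosh z ^ (p / 2) * Real.exp (-(y / 2)) *
    (1 + (p + 1) * y / 2 + (p + 1) * (p + 3) * y ^ 2 / 24)

/-- NUM (medium). `theorem t_num (h0 : NU0) (hs : SHI) (hu : GUP) (hg : GSC) : NUM`. Proof. `ω = √z`, `c = ω e^(-ω²/2)`, `v = (1 + e^(-2z))/2 = e^(-z) cosh z`, `c²/v = z e^(-z)/v = z/cosh z = y`.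
For `0 ≤ ρ < min c v`: GSC and SHI with `m = (c-ρ)/√(v-ρ)`: `GH p (c-ρ) √(v-ρ) = (√(v-ρ))^p GH p m 1 ≥ gam p Φ(ρ)`,
`Φ(ρ) = (√(v-ρ))^p e^(-m²/2) (1 + (p+1)m²/2 + (p+1)(p+3)m⁴/24)`, continuous at `ρ = 0` with `Φ(0) > 1` by NU0 (`(√v)^p = e^(-pz/2) (cosh z)^(p/2)`). So
`gam p Φ(ρ) - ρ - gam p → gam p (Φ(0) - 1) > 0` as `ρ → 0`: take `ρ > 0` small. -/
def NUM : Prop := ∀ p : ℝ, 1 ≤ p → p < 2 → ∃ ω ρ : ℝ, 0 < ω ∧ 0 < ρ ∧ ρ < ω * Real.exp (-(ω ^ 2 / 2)) ∧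
  ρ < (1 + Real.exp (-(2 * ω ^ 2))) / 2 ∧
  gam p + ρ ≤ GH p (ω * Real.exp (-(ω ^ 2 / 2)) - ρ) (Real.sqrt ((1 + Real.exp (-(2 * ω ^ 2))) / 2 - ρ))

/-! ## Part F: the strategy -/

/-- the sign of a real number, `1` at `0` -/
noncomputable def sn (x : ℝ) : ℝ := if 0 ≤ x then 1 else -1

/-- ST1 (medium). `theorem t_st1 (hm : MON) (hc : CLT) (hn : GMN) (he : GEV) : ST1`. Proof. `∑ t sg = ∑ t f + ∑ t (sg - f)`. MON with `c_j = min 1 (1/|t_j|)` (`c_j = 1` if `t_j = 0`) and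
`ϕ = |·|^p`, then CLT with `K = 1`, `w_j = c_j t_j` (`|w_j| = min |t_j| 1`), `s = univ`. `V = ∑ w²(1-f²) ≥ ∑ (1-f²) - ∑ (1 - w²) ≥ ∑(1-f²) - 2 ∑ ||t|-1| ≥ V₀` (`1 - w² ≤ 2(1-|w|) ≤ 2||t|-1|`,
`0 ≤ 1 - f² ≤ 1`). GMN in the second argument (first argument made nonnegative by GEV: `GH p a s = GH p |a| s`). -/
def ST1 : Prop := ∀ (p ε : ℝ), 1 ≤ p → p < 2 → 0 < ε → ∃ d₀ : ℕ, ∀ d : ℕ, d₀ ≤ d → ∀ (t f : Fin d → ℝ) (V₀ : ℝ),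
  (∀ j, |f j| ≤ 1) → 0 ≤ V₀ → V₀ ≤ ∑ j, (1 - f j ^ 2) - 2 * ∑ j, |(|t j| - 1)| →
  GH p (∑ j, t j * f j) (Real.sqrt V₀) - ε * (d : ℝ) ^ (p / 2) ≤ EE univ f (fun X => |∑ j, t j * sg X j| ^ p)

/-- ST2 (short). `theorem t_st2 (h1 : ST1) (hu : GUP) : ST2`. Proof. If the condition holds this is ST1. Otherwise Jensen (`EE_jensen` for `|·|^p`, with
`EE f (∑ t sg) = ∑ t f` by `EE_sum`, `EE_mul`, `EE_sg`): `EE ≥ |∑ t f|^p ≥ GH p (∑ t f) √V₀ - (√V₀)^p gam p` (GUP) and `gam ≤ 1`, `(√V₀)^p = V₀^(p/2)`. -/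
def ST2 : Prop := ∀ (p ε : ℝ), 1 ≤ p → p < 2 → 0 < ε → ∃ d₀ : ℕ, ∀ d : ℕ, d₀ ≤ d → ∀ (t f : Fin d → ℝ) (V₀ : ℝ),
  (∀ j, |f j| ≤ 1) → 0 ≤ V₀ →
  GH p (∑ j, t j * f j) (Real.sqrt V₀) - ε * (d : ℝ) ^ (p / 2) -
    (if V₀ ≤ ∑ j, (1 - f j ^ 2) - 2 * ∑ j, |(|t j| - 1)| then 0 else V₀ ^ (p / 2)) ≤
    EE univ f (fun X => |∑ j, t j * sg X j| ^ p)

/-- ST3 (short). `theorem t_st3 (h : GEV) : ST3`. Proof. `GH p (a U) s = GH p (sg U i * a U) s` (`sg = ±1`, `GH` even), then `EE_jensen`. -/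
def ST3 : Prop := ∀ (p s : ℝ) (ι : Type) [DecidableEq ι] (G : Finset ι) (i : ι) (a : Finset ι → ℝ), 1 ≤ p → p ≤ 2 →
  GH p (EE G (fun _ => 0) (fun U => sg U i * a U)) s ≤ EE G (fun _ => 0) (fun U => GH p (a U) s)

/-- ST4 (short). `theorem t_st4 (h : TRS) : ST4`. Proof. `EE_sum`, `EE_mul` (move the factor `T i j`), TRS with `θ_k = (ω/√N) sn(T k j)`: `sin θ_i = sn(T i j) sin(ω/√N)`, `cos θ_k = cos(ω/√N)`,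
`|G.erase i| = N - 1`, `T i j * sn(T i j) = |T i j|`. -/
def ST4 : Prop := ∀ (d : ℕ) (T : Fin d → Fin d → ℝ) (G : Finset (Fin d)) (ω : ℝ) (i : Fin d), i ∈ G →
  EE G (fun _ => 0) (fun U => sg U i * ∑ j, T i j *
      Real.sin (ω / Real.sqrt G.card * ∑ k ∈ G, sn (T k j) * sg U k)) =
    (∑ j, |T i j|) * (Real.sin (ω / Real.sqrt G.card) * Real.cos (ω / Real.sqrt G.card) ^ (G.card - 1))

/-- ST5 (short-medium). `theorem t_st5 : ST5`: the cut norm of the sign pattern. Proof. `|sn(T i j) - T i j| = ||T i j| - 1|`, so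
`∑_{i∈G} |∑_j sn(T i j) x_j| ≤ ∑_{i ∈ G} |∑_j T i j x_j| + ε d²`. With `X = {j : x_j = 1}`, `x_j = sg X j`; and for real `y` and `d ≥ 1`:
`|y| ≤ √d + |y|^p/(√d)^(p-1)` (if `|y| > √d` then `|y|^p ≥ |y| (√d)^(p-1)`), so `∑_{i∈G}|y_i| ≤ d √d + (√d)^(1-p) 4 d^(1+p/2) = 5 d^(3/2)`. -/
def ST5 : Prop := ∀ (p ε : ℝ) (d : ℕ) (T : Fin d → Fin d → ℝ) (G : Finset (Fin d)), 1 ≤ p → p ≤ 2 → 0 ≤ ε → 1 ≤ d →
  (∀ i ∈ G, ∑ j, |(|T i j| - 1)| ≤ ε * d) →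
  (∀ X : Finset (Fin d), ∑ i ∈ G, |∑ j, T i j * sg X j| ^ p ≤ 4 * (d : ℝ) ^ (1 + p / 2)) →
  ∀ x : Fin d → ℝ, (∀ j, x j = 1 ∨ x j = -1) →
    ∑ i ∈ G, |∑ j, sn (T i j) * x j| ≤ 5 * (d : ℝ) ^ (3 / 2 : ℝ) + ε * (d : ℝ) ^ 2

/-- STR (long, assembly). `theorem t_str (h2 : ST2) (h3 : ST3) (h4 : ST4) (h5 : ST5) (hw : WVA) (ha : ASY) (hn : GMN) (hg : GSC) (hu : GUP) (he : GEV) : STR`.
Proof. `c = ω e^(-ω²/2) ≤ 1`, `v = (1+e^(-2ω²))/2 ≤ 1`, `h = GH p (c-ρ) √(v-ρ) ≤ 2` (GUP), `D = cosh(8ω²)`. Take `0 < ε ≤ ρ/16`, `ε ≤ 1/2`, `ε ≤ ρ³/(256 D)` (note `ρ < 1`), ST2 with `ρ/16`,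
ASY with `ρ/4`, `d` large, `N = G.card ≥ (1-ε) d ≥ d/2` so `N ≥ N₀`. For `U ⊆ G` let `f_U(j) = sin(ω/√N ∑_{k∈G} sn(T k j) sg U k)`, `a_i(U) = ∑_j T i j f_U(j)`,
`W(U) = ∑_j cos(2ω/√N ∑_{k ∈ G} sn(T k j) sg U k)`, so `∑_j (1 - f_U(j)²) = (d + W(U))/2`. `V₀ = (v-ρ) d`. Call `U` bad if `W(U) < d (e^(-2ω²) - ρ/4) - (ρ/2) d`.
If `U` is not bad, then `(d+W)/2 - 2εd ≥ d (v - ρ/8 - ρ/4 - ρ/8) ≥ V₀`, so the condition in ST2 (with `t = T i`) holds for every `i ∈ G`.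
If `U` is bad then `(W(U) - d cos(2ω/√N)^N)² ≥ (ρ d/2)²` (ASY), so `EE G 0 (1_bad) ≤ (4/(ρ²d²)) EE (W - d cos^N)² ≤ (4/(ρ² d²)) D (d/N)(5 d^(3/2) + ε d²)` (WVA, ST5)
`≤ (8D/ρ²)(5/√d + ε) ≤ ρ/16` (`d/N ≤ 2`; `ε` term at most `ρ/32`, the other one for `d` large).
Average over `U` (means `0`) of the averages over `X` (means `f_U`): for `i ∈ G`, ST2, ST3:
`EE_U EE_X |∑_j T i j sg X j|^p ≥ GH p (EE (sg U i a_i)) √V₀ - (ρ/16) d^(p/2) - (ρ/16) V₀^(p/2)`, `V₀ ≤ d`. ST4: `EE (sg U i a_i) = (∑_j |T i j|) sin cos^(N-1) ≥ (1-ε) d (c - ρ/4)/√N ≥ (c-ρ) √d ≥ 0`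
(`∑_j|T i j| ≥ d - εd`; ASY; `N ≤ d`; `(1-ε)(c-ρ/4) ≥ c - ρ/4 - ε ≥ c - ρ`). GMN, GSC: `GH p (…) √V₀ ≥ GH p ((c-ρ)√d) (√(v-ρ) √d) = d^(p/2) h`. Sum over `i ∈ G`:
`EE_U EE_X ∑_{i∈G} |…|^p ≥ N d^(p/2) (h - ρ/8)`. If `h - ρ/8 < 0` the claim is trivial (take any `X`). Otherwise this is `≥ (1-ε) d^(1+p/2) (h - ρ/8) ≥ d^(1+p/2)(h - ρ/8 - 2ε) ≥ d^(1+p/2)(h - ρ/2)`,
and `EE_exists` twice gives `U`, then `X`. -/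
def STR : Prop := ∀ (p ω ρ : ℝ), 1 ≤ p → p < 2 → 0 < ω → 0 < ρ → ρ < ω * Real.exp (-(ω ^ 2 / 2)) →
  ρ < (1 + Real.exp (-(2 * ω ^ 2))) / 2 → ∃ ε : ℝ, 0 < ε ∧ ∃ d₀ : ℕ, ∀ d : ℕ, d₀ ≤ d →
  ∀ (T : Fin d → Fin d → ℝ) (G : Finset (Fin d)), (1 - ε) * d ≤ G.card →
  (∀ i ∈ G, ∑ j, |(|T i j| - 1)| ≤ ε * d) →
  (∀ X : Finset (Fin d), ∑ i ∈ G, |∑ j, T i j * sg X j| ^ p ≤ 4 * (d : ℝ) ^ (1 + p / 2)) →
  ∃ X : Finset (Fin d), (GH p (ω * Real.exp (-(ω ^ 2 / 2)) - ρ)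
      (Real.sqrt ((1 + Real.exp (-(2 * ω ^ 2))) / 2 - ρ)) - ρ / 2) * (d : ℝ) ^ (1 + p / 2) ≤
    ∑ i ∈ G, |∑ j, T i j * sg X j| ^ p

/-- MAI (medium-long). `theorem t_mai (hr : ROW) (hs : STR) (hn : NUM) (hu : GUP) : MAI`. Proof. NUM gives `ω, ρ`; STR gives `ε`; ROW with `ε` gives `δ₁` (we may take `δ₁ ≤ 1`, the second part of ROW
remains true for smaller `δ`); `δ = min (ε δ₁/4) (ρ/4)` and ROW again with `δ` in place of `ε` for the lower bound. Suppose no `X` works. `s_i = ((∑_j |T i j|^r)/d)^(1/r) ≥ 1`,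
`T' i j = T i j/s_i`: `∑_j |T' i j|^r = d`, and `∑_i |∑_j T' i j sg X j|^p ≤ ∑_i |∑_j T i j sg X j|^p < (gam + δ) d^(1+p/2) ≤ 4 d^(1+p/2)` for every `X` (`gam ≤ 1`). Let
`E_i = EE univ 0 |∑_j T' i j sg|^p`, `∑_i E_i ≤ (gam+δ) d^(1+p/2)` (`EE_sum`, `EE_mono`, `EE_const`), `E_i ≥ (gam - δ) d^(p/2)`. `G = {i : E_i ≤ (gam+δ₁) d^(p/2)}`; the complement has at most
`2δ d/δ₁ ≤ ε d` elements (`∑_i (E_i - (gam-δ) d^(p/2)) ≤ 2δ d^(1+p/2)`, each term outside `G` at least `δ₁ d^(p/2)`). STR applies to `T'`, `G` and gives `X` with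
`∑_{i∈G} … ≥ (gam + ρ - ρ/2) d^(1+p/2) ≥ (gam+δ) d^(1+p/2)`: contradiction (`d ≥ 1`). -/
def MAI : Prop := ∀ (p r : ℝ), 1 ≤ p → p < 2 → 1 ≤ r → r < 2 → ∃ δ : ℝ, 0 < δ ∧ ∃ d₀ : ℕ, ∀ d : ℕ, d₀ ≤ d →
  ∀ T : Fin d → Fin d → ℝ, (∀ i, (d : ℝ) ≤ ∑ j, |T i j| ^ r) →
  ∃ X : Finset (Fin d), (gam p + δ) * (d : ℝ) ^ (1 + p / 2) ≤ ∑ i, |∑ j, T i j * sg X j| ^ p

/-! ## Part G: back to the Banach-Mazur distance -/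

open Pool.Agent.helper75.BM (nrm L dBM)

/-- RDA (medium-long). `theorem t_rda : RDA`. Proof. `r = (1 - 1/q)⁻¹`, so `1/r + 1/q = 1`, `1 ≤ r < 2`. `a i j = A (Pi.single j 1) i`, `A x i = ∑_j a i j x j`. `b = A.symm (Pi.single i 1)`:
`1 = (A b) i = ∑_j a i j b_j ≤ (∑_j |a i j|^r)^(1/r) nrm q b` (Hoelder, for `q = ⊤`: `r = 1`) and `nrm q b ≤ lam nrm p (Pi.single i 1) = lam`. So `T i j = lam d^(1/r) a i j` has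
`∑_j |T i j|^r = d lam^r ∑_j|a i j|^r ≥ d`. For `x_j = sg X j`: `nrm q x = d^(1/q)` (`1` for `q = ⊤`), so
`∑_i |∑_j T i j x_j|^p = (lam d^(1/r))^p (nrm p (A x))^p ≤ (lam d^(1/r) d^(1/q))^p = (lam d)^p`. (`Pool.Agent.helper75.BM.nrm_eq`, `nrm_top`, `nrm_rpow` in Norms.lean.) -/
def RDA : Prop := ∀ (d : ℕ) (p q : ℝ≥0∞) [Fact (1 ≤ p)] [Fact (1 ≤ q)] (lam : ℝ) (A : (Fin d → ℝ) ≃ₗ[ℝ] (Fin d → ℝ)),
  1 ≤ d → p < 2 → 2 < q → 0 < lam → (∀ x, nrm p (A x) ≤ nrm q x) → (∀ x, nrm q x ≤ lam * nrm p (A x)) →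
  ∃ T : Fin d → Fin d → ℝ, (∀ i, (d : ℝ) ≤ ∑ j, |T i j| ^ ((1 - (1 / q).toReal)⁻¹)) ∧
    ∀ X : Finset (Fin d), ∑ i, |∑ j, T i j * sg X j| ^ p.toReal ≤ (lam * d) ^ p.toReal

/-- RDB (medium-long). `theorem t_rdb : RDB`. Proof. `r = (1 - 1/q)⁻¹` as in RDA, `a i j = A (Pi.single j 1) i`, `T j i = lam d^(1/p) a i j` (transposed). `1 = nrm q (e_j) ≤ lam nrm p (A e_j)`,
`nrm p (A e_j)^p = ∑_i |a i j|^p`, so `∑_i |T j i|^p ≥ d`. For signs `z_i = sg X i` and `y_j = ∑_i a i j z_i`: `(∑_j |y_j|^r)^(1/r) = sup_{nrm q x ≤ 1} ∑_j y_j x_j`; take the extremal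
`x_j = sign(y_j) |y_j|^(r-1)` (for `q = ⊤`, `r = 1`: `x_j = sign y_j`): `∑_j |y_j|^r = ∑_j y_j x_j = ∑_i z_i (A x)_i ≤ (∑_i |z_i|^(p'))^(1/p') nrm p (A x) ≤ d^(1-1/p) nrm q x` and
`nrm q x = (∑_j |y_j|^r)^(1/q)` (`(r-1) q = r`; `≤ 1` for `q = ⊤`). So `(∑_j|y_j|^r)^(1/r) ≤ d^(1-1/p)` (`1 - 1/q = 1/r`; trivial if `y = 0`). Hence
`∑_j |∑_i T j i z_i|^r = (lam d^(1/p))^r ∑_j|y_j|^r ≤ (lam d^(1/p) d^(1-1/p))^r = (lam d)^r`. -/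
def RDB : Prop := ∀ (d : ℕ) (p q : ℝ≥0∞) [Fact (1 ≤ p)] [Fact (1 ≤ q)] (lam : ℝ) (A : (Fin d → ℝ) ≃ₗ[ℝ] (Fin d → ℝ)),
  1 ≤ d → p < 2 → 2 < q → 0 < lam → (∀ x, nrm p (A x) ≤ nrm q x) → (∀ x, nrm q x ≤ lam * nrm p (A x)) →
  ∃ T : Fin d → Fin d → ℝ, (∀ i, (d : ℝ) ≤ ∑ j, |T i j| ^ p.toReal) ∧
    ∀ X : Finset (Fin d), ∑ i, |∑ j, T i j * sg X j| ^ ((1 - (1 / q).toReal)⁻¹) ≤ (lam * d) ^ ((1 - (1 / q).toReal)⁻¹)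

/-- FIN (medium). `theorem t_fin (hm : MAI) (ha : RDA) (hb : RDB) (hg : MOM) (hu : GUP) : FIN`. Proof. `dBM` is the infimum of `log lam` over the admissible `lam`
(`Pool.Agent.helper75.BM.Adm`, `exists_linear` in Lower.lean; the set is not empty, see `Pool/Agent/helper75/BM/Upper.lean`, `Strict.lean`; `le_csInf`). For an admissible `lam` take `A` from `exists_linear`.
(1) RDA and MAI with `(p, r)`, `r = (1-1/q)⁻¹`: `(gam p + δ) d^(1+p/2) ≤ (lam d)^p`, so `lam ≥ (gam p + δ)^(1/p) d^(1/p - 1/2)`,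
`log lam ≥ (1/p - 1/2) log d + (1/p) log(gam p + δ)`; (2) RDB and MAI with `(r, p)`: `(gam r + δ) d^(1+r/2) ≤ (lam d)^r`, `log lam ≥ (1/r - 1/2) log d + (1/r) log(gam r + δ)`, `1/r = 1 - 1/q`.
The new `δ` is the smaller one of `(1/p)(log(gam p + δ) - log(gam p))` and `(1/r)(log(gam r + δ) - log(gam r))` (`gam > 0` by GUP), and MOM gives the closed form of `gam`. -/
def FIN : Prop := ∀ (p q : ℝ≥0∞) [Fact (1 ≤ p)] [Fact (1 ≤ q)], p < 2 → 2 < q →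
  ∃ δ : ℝ, 0 < δ ∧ ∃ d₀ : ℕ, ∀ d : ℕ, d₀ ≤ d →
    ((1 / p).toReal - 1 / 2) * Real.log d + (1 / p).toReal *
        Real.log (2 ^ (p.toReal / 2) * Real.Gamma ((p.toReal + 1) / 2) / Real.sqrt Real.pi) + δ ≤ dBM (L d p) (L d q) ∧
    (1 / 2 - (1 / q).toReal) * Real.log d + (1 - (1 / q).toReal) *
        Real.log (2 ^ ((1 - (1 / q).toReal)⁻¹ / 2) * Real.Gamma (((1 - (1 / q).toReal)⁻¹ + 1) / 2) / Real.sqrt Real.pi) + δ ≤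
      dBM (L d p) (L d q)

end Pool.Agent.helper43.KG
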