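import Pool.Agent.helper68.KG.MON
import Pool.Agent.helper72.KG.TRI
import Pool.Agent.helper62.KG.TRS
import Pool.Agent.helper62.KG.KHI
import Pool.Agent.helper43.KG.GIC
import Pool.Agent.helper43.KG.GEV
import Pool.Agent.helper43.KG.GMN
import Pool.Agent.helper43.KG.GUP
import Pool.Agent.helper43.KG.GSC
import Pool.Agent.helper17.KG.MOM
import Pool.Agent.helper29.KG.SHI
import Pool.Agent.helper52.KG.CNV
import Pool.Agent.helper52.KG.TAY
import Pool.Agent.helper43.KG.ONE
import Pool.Agent.helper43.KG.LIN
import Pool.Agent.helper72.KG.CLT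
import Pool.Agent.helper17.KG.SLK
import Pool.Agent.helper75.KG.ROA
import Pool.Agent.helper83.KG.ROW
import Pool.Agent.helper82.KG.COV
import Pool.Agent.helper17.KG.RHO
import Pool.Agent.helper92.KG.WVA
import Pool.Agent.helper43.KG.ASY
import Pool.Agent.helper43.KG.NU0
import Pool.Agent.helper68.KG.NUM
import Pool.Agent.helper82.KG.ST1
import Pool.Agent.helper43.KG.ST2
import Pool.Agent.helper68.KG.ST3
import Pool.Agent.helper82.KG.ST4
import Pool.Agent.helper17.KG.ST5
import Pool.Agent.helper43.KG.STR
import Pool.Agent.helper43.KG.MAI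
import Pool.Agent.helper68.KG.RDA
import Pool.Agent.helper8.KG.RDB
import Pool.Agent.helper77.KG.FIN

set_option autoImplicit false

/-!
# Assembly of the rows kg:* (MP_cef0b4_gt)
-/

namespace Pool.Agent.helper43.KG

theorem top_trs : TRS := t_trs t_tri
theorem top_gev : GEV := t_gev t_gic
theorem top_gmn : GMN := t_gmn t_gic top_gev
theorem top_gup : GUP := t_gup t_gic
theorem top_shi : SHI := t_shi t_gic t_mom
theorem top_cnv : CNV := t_cnv t_gic
theorem top_one : ONE := t_one t_gic
theorem top_lin : LIN := t_lin t_gic top_one top_cnv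
theorem top_clt : CLT := t_clt t_gic t_tay top_lin
theorem top_slk : SLK := t_slk t_mon t_khi
theorem top_row : ROW := t_row t_mon top_clt top_slk t_roa top_gup t_gsc
theorem top_cov : COV := t_cov t_tri
theorem top_wva : WVA := t_wva t_tri top_cov t_rho
theorem top_num : NUM := t_num t_nu0 top_shi top_gup t_gsc
theorem top_st1 : ST1 := t_st1 t_mon top_clt top_gmn top_gev
theorem top_st2 : ST2 := t_st2 top_st1 top_gup
theorem top_st3 : ST3 := t_st3 top_gev
theorem top_st4 : ST4 := t_st4 top_trs
theorem top_str : STR := t_str top_st2 top_st3 top_st4 t_st5 top_wva t_asy top_gmn t_gsc top_gup top_gev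
theorem top_mai : MAI := t_mai top_row top_str top_num top_gup
theorem top_fin : FIN := t_fin top_mai t_rda t_rdb t_mom top_gup

end Pool.Agent.helper43.KG
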